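import Pool.Agent.Lib.MP_311ff9_lc.Problem

/-!
# Optimization problems, the class APX, AP-reductions, and APX-hardness
-/

namespace Pool.Agent.MP_311ff9_lc

open Pool.Agent.PolyTime
open scoped ENNReal

/-- An optimization problem: (encoded) instances, (encoded) candidate solutions, the feasibility
relation, the objective function, and the goal. -/
structure OptProblem where
  Inst : Type
  Sol : Type
  encInst : Inst → D
  encSol : Sol → D
  feasible : Inst → Sol → Prop
  value : Inst → Sol → ℝ
  /-- `true` for a maximization problem, `false` for a minimization problem -/
  isMax : Bool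

/-- The performance ratio of the solution `y` of the instance `x` is at most `r`. For a
maximization problem: the value of every feasible solution, hence the optimum, is at most `r`
times the value of `y`. For a minimization problem: the value of `y` is at most `r` times the
value of every feasible solution, hence at most `r` times the optimum. -/
def OptProblem.RatioAtMost (A : OptProblem) (x : A.Inst) (y : A.Sol) (r : ℝ) : Prop :=
  ∀ y', A.feasible x y' →
    if A.isMax = true then A.value x y' ≤ r * A.value x y else A.value x y ≤ r * A.value x y'

/-- The class NPO. Feasible solutions have polynomial length; whether a piece of data of at most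
that length codes a feasible solution of a given instance is decided in polynomial time; the
values of feasible solutions are positive integers and are computed in polynomial time. -/
structure OptProblem.InNPO (A : OptProblem) : Prop where
  solutions : ∃ (q : Polynomial ℕ) (F : A.Inst × D → Bool),
    IsPolyTime (fun z : A.Inst × D => D.cons (A.encInst z.1) z.2) (fun b : Bool => enc b) F ∧
    (∀ x y, A.feasible x y →
      (bits (A.encSol y)).length ≤ q.eval (bits (A.encInst x)).length) ∧
    ∀ x d, (bits d).length ≤ q.eval (bits (A.encInst x)).length →
      (F (x, d) = true ↔ ∃ y, A.encSol y = d ∧ A.feasible x y)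
  values : ∃ m : {z : A.Inst × A.Sol // A.feasible z.1 z.2} → ℕ,
    IsPolyTime (fun z : {z : A.Inst × A.Sol // A.feasible z.1 z.2} =>
      D.cons (A.encInst z.1.1) (A.encSol z.1.2)) (fun n : ℕ => enc n) m ∧
    ∀ z, A.value z.1.1 z.1.2 = m z ∧ 0 < m z

/-- The class APX: NPO problems with a polynomial-time approximation algorithm `T` of bounded
performance ratio. -/
structure OptProblem.InAPX (A : OptProblem) : Prop where
  npo : A.InNPO
  approx : ∃ (T : A.Inst → A.Sol) (ρ : ℝ), IsPolyTime A.encInst A.encSol T ∧
    ∀ x, A.feasible x (T x) ∧ A.RatioAtMost x (T x) ρ

/-- The rational numbers `r > 1`. -/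
abbrev RatioParam := {r : ℚ // 1 < r}

/-- Code of a rational number `r > 1`: numerator and denominator in unary. -/
def ratCode (r : RatioParam) : D :=
  enc (List.replicate r.1.num.toNat (), List.replicate r.1.den ())

/-- An AP-reduction from `A` to `B`: functions `f` (a rational `r > 1` and an instance of `A` to
an instance of `B`) and `g` (a rational `r > 1`, an instance `x` of `A` and a solution of
`f (r, x)` to a solution of `x`), and a constant `α ≥ 1`, such that a solution of `f (r, x)` of
performance ratio at most `r` is mapped to a solution of `x` of performance ratio at most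
`1 + α (r - 1)`. Both `f` and `g` are computed in time polynomial in the length of the other
arguments and in the numerator and the denominator of `r` (in particular, in polynomial time for
every fixed `r`). -/
structure APReduces (A B : OptProblem) where
  f : RatioParam × A.Inst → B.Inst
  g : RatioParam × (A.Inst × B.Sol) → A.Sol
  α : ℝ
  one_le_α : 1 ≤ α
  f_polyTime : IsPolyTime (fun z : RatioParam × A.Inst =>
    D.cons (ratCode z.1) (A.encInst z.2)) B.encInst f
  g_polyTime : IsPolyTime (fun z : RatioParam × (A.Inst × B.Sol) =>
    D.cons (ratCode z.1) (D.cons (A.encInst z.2.1) (B.encSol z.2.2))) A.encSol g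
  exists_feasible : ∀ r x, (∃ y, A.feasible x y) → ∃ y, B.feasible (f (r, x)) y
  g_feasible : ∀ r x y, B.feasible (f (r, x)) y → A.feasible x (g (r, x, y))
  ratio : ∀ (r : RatioParam) x y, B.feasible (f (r, x)) y →
    B.RatioAtMost (f (r, x)) y ((r.1 : ℚ) : ℝ) →
      A.RatioAtMost x (g (r, x, y)) (1 + α * (((r.1 : ℚ) : ℝ) - 1))

/-- A problem is APX-hard if every problem in APX (maximization or minimization) AP-reduces to
it. -/
def APXHard (B : OptProblem) : Prop := ∀ A : OptProblem, A.InAPX → Nonempty (APReduces A B)

/-- Max-3DM under `L_p` with the dimension part of the input, as an optimization problem. -/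
noncomputable def opt3DM (p : ℝ≥0∞) [Fact (1 ≤ p)] : OptProblem where
  Inst := PointSet
  Sol := List (List ℚ × List ℚ × List ℚ)
  encInst P := enc P.pts
  encSol π := enc π
  feasible P π := IsPartition P π
  value P π := (π.map (perimeter p P.s)).sum
  isMax := true

end Pool.Agent.MP_311ff9_lc
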