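import Pool.Agent.Lib.MP_311ff9_lc.Graph

/-!
# Blocks: one matching for each block
-/

namespace Pool.Agent.MP_311ff9_lc

/-- The blocks: three for each colour, and one for each of the two kinds of partners. -/
def blocks (Δ : ℕ) : List (ℕ × ℕ) :=
  ((List.range (2 * Δ + 1)).flatMap fun c => [(0, c), (0, c), (0, c)]) ++ [(1, 0), (2, 0)]

/-- sign and representative of a point in a block: matched points have the same representative
and opposite signs -/
def rep (col : List ((ℕ × ℕ) × ℕ)) (b x : ℕ × ℕ) : Bool × (ℕ × ℕ) :=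
  if b.1 = 0 then
    if x.1 = 0 then
      ((col.find? fun y => decide (y.2 = b.2) && decide (y.1.2 = x.2)).map
        fun y => (true, (0, y.1.1))).getD (false, x)
    else (false, x)
  else if x.1 = b.1 then (true, (0, x.2)) else (false, x)

theorem length_blocks (Δ : ℕ) : (blocks Δ).length = 6 * Δ + 5 := by
  simp [blocks, List.length_flatMap]
  ring

section
variable {Δ : ℕ} {adj : ℕ → ℕ → Prop} {col : List ((ℕ × ℕ) × ℕ)}

theorem ColInv.eq_of_touch (h : ColInv Δ adj col) {x y : (ℕ × ℕ) × ℕ} (hx : x ∈ col)
    (hy : y ∈ col) (ht : touch x.1 y.1 = true) (hc : x.2 = y.2) : x = y := by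
  by_contra hne
  have : Std.Symm (fun x y : (ℕ × ℕ) × ℕ => touch x.1 y.1 = true → x.2 ≠ y.2) :=
    ⟨fun a b hab ht' => by
      rw [touch_comm] at ht'
      exact (hab ht').symm⟩
  exact h.proper.forall hx hy hne ht hc

theorem ColInv.eq_of_fst (h : ColInv Δ adj col) {x y : (ℕ × ℕ) × ℕ} (hx : x ∈ col)
    (hy : y ∈ col) (hc : x.1 = y.1 ∨ x.1 = (y.1.2, y.1.1)) : x = y := by
  by_contra hne
  have : Std.Symm (fun x y : (ℕ × ℕ) × ℕ => x.1 ≠ y.1 ∧ x.1 ≠ (y.1.2, y.1.1)) :=
    ⟨fun a b hab => ⟨hab.1.symm, fun h => hab.2 (by rw [h])⟩⟩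
  have := h.distinct.forall hx hy hne
  rcases hc with hc | hc
  · exact this.1 hc
  · exact this.2 hc

/-- possible values of `rep` in a colour block on graph points -/
theorem rep_color (c u : ℕ) :
    (∃ a, ((a, u), c) ∈ col ∧ rep col (0, c) (0, u) = (true, (0, a))) ∨
      ((∀ a, ((a, u), c) ∉ col) ∧ rep col (0, c) (0, u) = (false, (0, u))) := by
  unfold rep
  simp only [if_true]
  cases hf : col.find? (fun y => decide (y.2 = c) && decide (y.1.2 = u)) with
  | none =>
    right
    refine ⟨fun a ha => ?_, rfl⟩
    rw [List.find?_eq_none] at hf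
    exact hf _ ha (by simp)
  | some y =>
    left
    have h1 := List.mem_of_find?_eq_some hf
    have h2 := List.find?_some hf
    simp only [Bool.and_eq_true, decide_eq_true_eq] at h2
    obtain ⟨⟨a, b⟩, c'⟩ := y
    simp only at h2
    obtain ⟨rfl, rfl⟩ := h2
    exact ⟨a, h1, rfl⟩

/-- Two graph points in a colour block. -/
theorem agree_color (h : ColInv Δ adj col) {c u v : ℕ} (huv : u ≠ v) :
    ((rep col (0, c) (0, u)).2 = (rep col (0, c) (0, v)).2 ↔
      ((u, v), c) ∈ col ∨ ((v, u), c) ∈ col) ∧
    ((rep col (0, c) (0, u)).2 = (rep col (0, c) (0, v)).2 →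
      (rep col (0, c) (0, u)).1 ≠ (rep col (0, c) (0, v)).1) := by
  rcases rep_color (col := col) c u with ⟨a, ha, e1⟩ | ⟨ha, e1⟩ <;>
    rcases rep_color (col := col) c v with ⟨b, hb, e2⟩ | ⟨hb, e2⟩ <;> rw [e1, e2]
  · have hab : a ≠ b := by
      rintro rfl
      have := h.eq_of_touch ha hb (by simp [touch]) rfl
      simp at this
      exact huv this
    refine ⟨⟨fun heq => ?_, fun hor => ?_⟩, fun heq => ?_⟩
    · exact absurd (by simpa using heq) hab
    · rcases hor with hor | hor
      · have k1 := h.eq_of_touch ha hor (by simp [touch]) rfl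
        simp only [Prod.mk.injEq] at k1
        exact absurd k1.1.2 huv
      · have k1 := h.eq_of_touch hb hor (by simp [touch]) rfl
        simp only [Prod.mk.injEq] at k1
        exact absurd k1.1.2.symm huv
    · exact absurd (by simpa using heq) hab
  · refine ⟨⟨fun heq => ?_, fun hor => ?_⟩, fun _ => by simp⟩
    · have : a = v := by simpa using heq
      subst this
      exact Or.inr ha
    · rcases hor with hor | hor
      · exact absurd hor (hb u)
      · have k1 := h.eq_of_touch ha hor (by simp [touch]) rfl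
        simp only [Prod.mk.injEq] at k1
        rw [k1.1.1]
  · refine ⟨⟨fun heq => ?_, fun hor => ?_⟩, fun _ => by simp⟩
    · have : u = b := by simpa using heq
      subst this
      exact Or.inl hb
    · rcases hor with hor | hor
      · have k1 := h.eq_of_touch hb hor (by simp [touch]) rfl
        simp only [Prod.mk.injEq] at k1
        rw [k1.1.1]
      · exact absurd hor (ha v)
  · refine ⟨⟨fun heq => ?_, fun hor => ?_⟩, fun heq => ?_⟩
    · exact absurd (by simpa using heq) huv
    · rcases hor with hor | hor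
      · exact absurd hor (hb u)
      · exact absurd hor (ha v)
    · exact absurd (by simpa using heq) huv

/-- number of blocks in which two points agree -/
def agreeCount (Δ : ℕ) (col : List ((ℕ × ℕ) × ℕ)) (x y : ℕ × ℕ) : ℕ :=
  (blocks Δ).countP fun b => decide ((rep col b x).2 = (rep col b y).2)

theorem countP_flat3 (n : ℕ) (q : ℕ × ℕ → Bool) :
    ((List.range n).flatMap fun c => [(0, c), (0, c), (0, c)]).countP q =
      3 * (List.range n).countP fun c => q (0, c) := by
  induction (List.range n) with
  | nil => rfl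
  | cons c l ih =>
    rw [List.flatMap_cons, List.countP_append, ih, List.countP_cons]
    cases hq : q (0, c)
    · simp [hq]
    · simp [hq]; ring

/-- Hypotheses on a colouring of the arcs between kept vertices. -/
structure GoodCol (Δ : ℕ) (adjb : ℕ → ℕ → Bool) (K : List ℕ)
    (col : List ((ℕ × ℕ) × ℕ)) : Prop where
  inv : ColInv Δ (fun u v => adjb u v = true) col
  mem : ∀ x ∈ col, x.1.1 ∈ K ∧ x.1.2 ∈ K
  cover : ∀ u v, adjb u v = true → u ∈ K → v ∈ K → ∃ c, ((u, v), c) ∈ col ∨ ((v, u), c) ∈ col
  symm : ∀ u v, adjb u v = adjb v u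

theorem agree_eq_wt {adjb : ℕ → ℕ → Bool} {K : List ℕ} (h : GoodCol Δ adjb K col)
    {x y : ℕ × ℕ} (hxy : x ≠ y) (hx : x.1 = 0 → x.2 ∈ K) (hy : y.1 = 0 → y.2 ∈ K) :
    agreeCount Δ col x y = wt adjb x y ∧
      ∀ b ∈ blocks Δ, (rep col b x).2 = (rep col b y).2 → (rep col b x).1 ≠ (rep col b y).1 := by
  obtain ⟨tx, u⟩ := x
  obtain ⟨ty, v⟩ := y
  simp only at hx hy
  unfold agreeCount blocks
  rw [List.countP_append, countP_flat3]
  have hP : ∀ (t t' a b : ℕ), (t, a) ≠ (t', b) → ∀ s : ℕ, s ≠ 0 →
      ((rep col (s, 0) (t, a)).2 = (rep col (s, 0) (t', b)).2 ↔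
        a = b ∧ ((t = 0 ∧ t' = s) ∨ (t' = 0 ∧ t = s))) ∧
      ((rep col (s, 0) (t, a)).2 = (rep col (s, 0) (t', b)).2 →
        (rep col (s, 0) (t, a)).1 ≠ (rep col (s, 0) (t', b)).1) := by
    intro t t' a b hne s hs
    unfold rep
    simp only [hs, if_false]
    by_cases h1 : t = s <;> by_cases h2 : t' = s
    · subst h1; subst h2
      have : a ≠ b := fun h => hne (by rw [h])
      simp [this]
    · subst h1
      simp only [if_true, h2, if_false, Prod.mk.injEq, ne_eq, Bool.true_eq_false,
        not_false_eq_true, implies_true, and_true]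
      simp only [and_false, false_or]
      constructor
      · rintro ⟨rfl, rfl⟩; exact ⟨rfl, rfl⟩
      · rintro ⟨rfl, rfl⟩; exact ⟨rfl, rfl⟩
    · subst h2
      simp only [if_true, h1, if_false, Prod.mk.injEq, ne_eq, Bool.false_eq_true,
        not_false_eq_true, implies_true, and_true, and_false, or_false]
      constructor
      · rintro ⟨rfl, rfl⟩; exact ⟨rfl, rfl⟩
      · rintro ⟨rfl, rfl⟩; exact ⟨rfl, rfl⟩
    · simp only [h1, h2, if_false, and_false, or_self, iff_false]
      exact ⟨hne, fun h => absurd h hne⟩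
  have hPQ : ([(1, 0), (2, 0)] : List (ℕ × ℕ)).countP
      (fun b => decide ((rep col b (tx, u)).2 = (rep col b (ty, v)).2)) =
      if u = v ∧ ((tx = 0 ∧ (ty = 1 ∨ ty = 2)) ∨ (ty = 0 ∧ (tx = 1 ∨ tx = 2))) then 1 else 0 := by
    have p1 := (hP tx ty u v hxy 1 (by norm_num)).1
    have p2 := (hP tx ty u v hxy 2 (by norm_num)).1
    simp only [List.countP_cons, List.countP_nil, decide_eq_true_eq, zero_add]
    rw [if_congr p2 rfl rfl, if_congr p1 rfl rfl]
    by_cases huv : u = v
    · simp only [huv, true_and]
      by_cases h1 : tx = 0 <;> by_cases h2 : ty = 0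
      · exact absurd (by rw [h1, h2, huv]) hxy
      · simp only [h1, true_and, h2, false_and, or_false]
        by_cases h3 : ty = 1
        · simp [h3]
        · by_cases h4 : ty = 2 <;> simp [h3, h4]
      · simp only [h1, false_and, h2, true_and, false_or]
        by_cases h3 : tx = 1
        · simp [h3]
        · by_cases h4 : tx = 2 <;> simp [h3, h4]
      · simp [h1, h2]
    · simp [huv]
  rw [hPQ]
  have hrepne : ∀ (c t a : ℕ), t ≠ 0 → rep col (0, c) (t, a) = (false, (t, a)) := by
    intro c t a ht
    simp [rep, ht]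
  have hrep0 : ∀ (c a : ℕ), (rep col (0, c) (0, a)).2.1 = 0 := by
    intro c a
    rcases rep_color (col := col) c a with ⟨b, _, e1⟩ | ⟨_, e1⟩ <;> rw [e1]
  have hmemb : ∀ b ∈ ((List.range (2 * Δ + 1)).flatMap fun c => [(0, c), (0, c), (0, c)]) ++
      [(1, 0), (2, 0)], (∃ c, b = (0, c)) ∨ b = (1, 0) ∨ b = (2, 0) := by
    intro b hb
    simp only [List.mem_append, List.mem_flatMap, List.mem_cons, List.not_mem_nil,
      or_false] at hb
    rcases hb with ⟨c, _, hb⟩ | hb
    · left; exact ⟨c, by rcases hb with h | h | h <;> exact h⟩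
    · right; exact hb
  have hcase : ∀ (P : Prop), (∀ c, (rep col (0, c) (tx, u)).2 = (rep col (0, c) (ty, v)).2 →
      (rep col (0, c) (tx, u)).1 ≠ (rep col (0, c) (ty, v)).1) →
      ∀ b ∈ ((List.range (2 * Δ + 1)).flatMap fun c => [(0, c), (0, c), (0, c)]) ++
      [(1, 0), (2, 0)], (rep col b (tx, u)).2 = (rep col b (ty, v)).2 →
        (rep col b (tx, u)).1 ≠ (rep col b (ty, v)).1 := by
    intro _ hc b hb heq
    rcases hmemb b hb with ⟨c, rfl⟩ | rfl | rfl
    · exact hc c heq
    · exact (hP tx ty u v hxy 1 (by norm_num)).2 heq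
    · exact (hP tx ty u v hxy 2 (by norm_num)).2 heq
  by_cases h1 : tx = 0 <;> by_cases h2 : ty = 0
  · subst h1; subst h2
    have huv : u ≠ v := fun h => hxy (by rw [h])
    refine ⟨?_, hcase True fun c heq => (agree_color h.inv huv).2 heq⟩
    have hcnt : (List.range (2 * Δ + 1)).countP
        (fun c => decide ((rep col (0, c) (0, u)).2 = (rep col (0, c) (0, v)).2)) =
        if adjb u v = true then 1 else 0 := by
      have e : ∀ c, decide ((rep col (0, c) (0, u)).2 = (rep col (0, c) (0, v)).2) =
          decide (((u, v), c) ∈ col ∨ ((v, u), c) ∈ col) := by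
        intro c
        exact decide_eq_decide.2 (agree_color h.inv huv).1
      simp only [e]
      split_ifs with hadj
      · obtain ⟨c0, hc0⟩ := h.cover u v hadj (hx rfl) (hy rfl)
        have huniq : ∀ c, (((u, v), c) ∈ col ∨ ((v, u), c) ∈ col) ↔ c = c0 := by
          intro c
          constructor
          · intro hc
            rcases hc with hc | hc <;> rcases hc0 with hc0 | hc0
            · have := h.inv.eq_of_fst hc hc0 (Or.inl rfl)
              simpa using this
            · have := h.inv.eq_of_fst hc hc0 (Or.inr rfl)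
              simp only [Prod.mk.injEq] at this
              exact this.2
            · have := h.inv.eq_of_fst hc hc0 (Or.inr rfl)
              simp only [Prod.mk.injEq] at this
              exact this.2
            · have := h.inv.eq_of_fst hc hc0 (Or.inl rfl)
              simpa using this
          · rintro rfl; exact hc0
        have hlt : c0 < 2 * Δ + 1 := by
          rcases hc0 with hc0 | hc0 <;> exact h.inv.lt _ hc0
        have : (List.range (2 * Δ + 1)).count c0 = 1 :=
          List.count_eq_one_of_mem List.nodup_range (List.mem_range.2 hlt)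
        refine Eq.trans ?_ this
        unfold List.count
        refine List.countP_congr fun c _ => ?_
        simp only [decide_eq_true_eq, beq_iff_eq]
        exact huniq c
      · rw [List.countP_eq_zero]
        intro c _
        simp only [decide_eq_true_eq]
        rintro (hc | hc)
        · exact hadj (h.inv.adj_of_mem _ hc)
        · exact hadj (by rw [h.symm]; exact h.inv.adj_of_mem _ hc)
    rw [hcnt]
    unfold wt
    simp only [true_and, huv, false_and, if_false, add_zero]
    split_ifs <;> rfl
  · subst h1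
    have hne : ∀ c, (rep col (0, c) (0, u)).2 ≠ (rep col (0, c) (ty, v)).2 := by
      intro c heq
      rw [hrepne c ty v h2] at heq
      have := hrep0 c u
      rw [heq] at this
      exact h2 this
    refine ⟨?_, hcase True fun c heq => absurd heq (hne c)⟩
    have hcnt : (List.range (2 * Δ + 1)).countP
        (fun c => decide ((rep col (0, c) (0, u)).2 = (rep col (0, c) (ty, v)).2)) = 0 := by
      rw [List.countP_eq_zero]
      intro c _
      simp [hne c]
    rw [hcnt]
    unfold wt
    simp [h2]
  · subst h2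
    have hne : ∀ c, (rep col (0, c) (tx, u)).2 ≠ (rep col (0, c) (0, v)).2 := by
      intro c heq
      rw [hrepne c tx u h1] at heq
      have := hrep0 c v
      rw [← heq] at this
      exact h1 this
    refine ⟨?_, hcase True fun c heq => absurd heq (hne c)⟩
    have hcnt : (List.range (2 * Δ + 1)).countP
        (fun c => decide ((rep col (0, c) (tx, u)).2 = (rep col (0, c) (0, v)).2)) = 0 := by
      rw [List.countP_eq_zero]
      intro c _
      simp [hne c]
    rw [hcnt]
    unfold wt
    simp [h1]
  · have hne : ∀ c, (rep col (0, c) (tx, u)).2 ≠ (rep col (0, c) (ty, v)).2 := by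
      intro c heq
      rw [hrepne c tx u h1, hrepne c ty v h2] at heq
      exact hxy heq
    refine ⟨?_, hcase True fun c heq => absurd heq (hne c)⟩
    have hcnt : (List.range (2 * Δ + 1)).countP
        (fun c => decide ((rep col (0, c) (tx, u)).2 = (rep col (0, c) (ty, v)).2)) = 0 := by
      rw [List.countP_eq_zero]
      intro c _
      simp [hne c]
    rw [hcnt]
    unfold wt
    simp [h1, h2]

end

end Pool.Agent.MP_311ff9_lc
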