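import Pool.Agent.Lib.MP_311ff9_lc.Extract

/-!
# The point sets of the reduction
-/

namespace Pool.Agent.MP_311ff9_lc

open scoped ENNReal

/-- coordinates of a point, finite `p` -/
def vecFin (Δ : ℕ) (A : List (List Bool)) (x : ℕ × ℕ) : List ℚ :=
  (indexFin Δ (grow (pointList (kept A)))).map
    (coordFin (coloring Δ (arcsK A)) ((pointList (kept A)).zip (grow (pointList (kept A)))) x)

/-- coordinates of a point, `p = ∞` -/
def vecInf (A : List (List Bool)) (x : ℕ × ℕ) : List ℚ :=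
  (pointList (kept A)).map (coordInf (adjb A) x)

/-- coordinates of a point -/
def vec (inf : Bool) (Δ : ℕ) (A : List (List Bool)) (x : ℕ × ℕ) : List ℚ :=
  if inf = true then vecInf A x else vecFin Δ A x

/-- the dimension -/
def dim (inf : Bool) (Δ : ℕ) (A : List (List Bool)) : ℕ :=
  if inf = true then (pointList (kept A)).length
  else (indexFin Δ (grow (pointList (kept A)))).length

/-- the list of points -/
def ptsOf (inf : Bool) (Δ : ℕ) (A : List (List Bool)) : List (List ℚ) :=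
  (pointList (kept A)).map (vec inf Δ A)

section
variable {Δ : ℕ} (X : BoundedGraph Δ)

theorem goodCol : GoodCol Δ (adjb X.matrix) (kept X.matrix)
    (coloring Δ (arcsK X.matrix)) := by
  have hsymm : ∀ u v, adjb X.matrix u v = adjb X.matrix v u := by
    intro u v
    rw [Bool.eq_iff_iff, adjb_iff, adjb_iff]
    exact ⟨Adj_symm X, Adj_symm X⟩
  obtain ⟨h1, h2, h3⟩ := coloring_spec (Δ := Δ) (adj := fun u v => adjb X.matrix u v = true)
    (nbr X) (fun u v h => (mem_nbr X).2 ((adjb_iff X).1 h)) (card_nbr X)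
    (fun u v h => by rw [hsymm]; exact h) (fun u v h => Adj_ne X ((adjb_iff X).1 h))
    (arcsK X.matrix) ((nodup_arcs X).filter _)
    (fun e he => (adjb_iff X).2 ((mem_arcsK X (u := e.1) (v := e.2)).1 he).1)
  refine ⟨h1, ?_, ?_, hsymm⟩
  · intro x hx
    exact ((mem_arcsK X (u := x.1.1) (v := x.1.2)).1 (h2 x hx)).2
  · intro u v huv hu hv
    obtain ⟨x, hx, h⟩ := h3 (u, v) ((mem_arcsK X).2 ⟨(adjb_iff X).1 huv, hu, hv⟩)
    obtain ⟨e, c⟩ := x
    refine ⟨c, ?_⟩
    rcases h with h | h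
    · left; simp only at h; rw [← h]; exact hx
    · right; simp only at h; rw [← h]; exact hx

/-- levels for finite `p` -/
noncomputable def levFin (Δ : ℕ) (p : ℝ≥0∞) (w : ℕ) : ℝ :=
  ((6 * Δ + 5 : ℝ) + w) ^ (1 / p.toReal)

/-- levels for `p = ∞` -/
def levInf (w : ℕ) : ℝ := (lvl w : ℚ)

theorem levels_inf : Levels levInf := by
  constructor <;> norm_num [levInf, lvl]

theorem one_le_toReal {p : ℝ≥0∞} (h1 : 1 ≤ p) (hp : p ≠ ∞) : 1 ≤ p.toReal := by
  rw [← ENNReal.toReal_one]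
  exact ENNReal.toReal_mono hp h1

theorem levels_fin (Δ : ℕ) {p : ℝ≥0∞} (h1 : 1 ≤ p) (hp : p ≠ ∞) : Levels (levFin Δ p) := by
  have hp1 := one_le_toReal h1 hp
  set θ : ℝ := 1 / p.toReal with hθ
  have hθ0 : 0 < θ := by positivity
  have hθ1 : θ ≤ 1 := by rw [hθ]; exact (div_le_one (by linarith)).2 hp1
  have hC : (5 : ℝ) ≤ 6 * Δ + 5 := by
    have : (0 : ℝ) ≤ Δ := Nat.cast_nonneg _
    linarith
  set C : ℝ := 6 * Δ + 5 with hCdef
  have e0 : levFin Δ p 0 = C ^ θ := by simp [levFin, hθ, hCdef]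
  have e1 : levFin Δ p 1 = (C + 1) ^ θ := by simp [levFin, hθ, hCdef]
  have e3 : levFin Δ p 3 = (C + 3) ^ θ := by simp [levFin, hθ, hCdef]
  refine ⟨?_, ?_, ?_, ?_⟩
  · rw [e0]; exact Real.rpow_pos_of_pos (by linarith) _
  · rw [e0, e1]; exact Real.rpow_le_rpow (by linarith) (by linarith) hθ0.le
  · rw [e0, e1, e3]
    have ha : 0 < (C + 3) ^ θ := Real.rpow_pos_of_pos (by linarith) _
    have hb : 0 < C ^ θ := Real.rpow_pos_of_pos (by linarith) _
    have hc : 0 < (C + 1) ^ θ := Real.rpow_pos_of_pos (by linarith) _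
    have hmul : (C + 1) ^ θ * (C + 1) ^ θ < (C + 3) ^ θ * C ^ θ := by
      rw [← Real.mul_rpow (by linarith) (by linarith), ← Real.mul_rpow (by linarith) (by linarith)]
      exact Real.rpow_lt_rpow (by positivity) (by nlinarith) hθ0
    have : 2 * (C + 1) ^ θ < (C + 3) ^ θ + C ^ θ := by
      by_contra hcon
      push Not at hcon
      have h4 : ((C + 3) ^ θ + C ^ θ) ^ 2 ≤ (2 * (C + 1) ^ θ) ^ 2 :=
        pow_le_pow_left₀ (by linarith) hcon 2
      nlinarith [sq_nonneg ((C + 3) ^ θ - C ^ θ)]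
    linarith
  · rw [e0, e1, e3]
    have hconc := Real.concaveOn_rpow hθ0.le hθ1
    have hx : C ∈ Set.Ici (0 : ℝ) := Set.mem_Ici.2 (by linarith)
    have hy : C + 3 ∈ Set.Ici (0 : ℝ) := Set.mem_Ici.2 (by linarith)
    have := hconc.2 hx hy (by norm_num : (0 : ℝ) ≤ 2 / 3) (by norm_num : (0 : ℝ) ≤ 1 / 3)
      (by norm_num)
    simp only [smul_eq_mul] at this
    have hh : 2 / 3 * C + 1 / 3 * (C + 3) = C + 1 := by ring
    rw [hh] at this
    linarith

theorem levelEmb_fin (p : ℝ≥0∞) [hp1 : Fact (1 ≤ p)] (hp : p ≠ ∞) :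
    ∃ κ : ℝ, LevelEmb p X.matrix (dim false Δ X.matrix) (vec false Δ X.matrix) κ
      (levFin Δ p) := by
  obtain ⟨k, hk, hlen⟩ := grow_eq (pointList (kept X.matrix))
  refine ⟨((2 : ℝ) ^ p.toReal * (2 ^ k / 2)) ^ (1 / p.toReal), ?_, ?_⟩
  · have : (0 : ℝ) < 2 ^ p.toReal := Real.rpow_pos_of_pos (by norm_num) _
    exact Real.rpow_pos_of_pos (by positivity) _
  · intro x hx y hy hxy
    have := dist_fin p hp (goodCol X) hlen hx hy hxy
    unfold vec dim vecFin levFin
    simp only [Bool.false_eq_true, if_false]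
    rw [hk]
    exact this

theorem levelEmb_inf [Fact ((1 : ℝ≥0∞) ≤ ∞)] :
    LevelEmb ∞ X.matrix (dim true Δ X.matrix) (vec true Δ X.matrix) 1 levInf := by
  refine ⟨one_pos, ?_⟩
  intro x hx y _ hxy
  have := dist_inf (adjb := adjb X.matrix) (goodCol X).symm hx hxy
  unfold vec dim vecInf levInf
  simp only [if_true]
  rw [this, one_mul]

theorem length_vec (inf : Bool) (x : ℕ × ℕ) : (vec inf Δ X.matrix x).length = dim inf Δ X.matrix := by
  unfold vec dim
  split_ifs
  · simp [vecInf]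
  · simp [vecFin]

theorem dim_pos (inf : Bool) : 0 < dim inf Δ X.matrix := by
  unfold dim
  split_ifs
  · rw [length_pointList]; omega
  · obtain ⟨k, hk, _⟩ := grow_eq (pointList (kept X.matrix))
    rw [hk]
    unfold indexFin
    rw [List.length_flatMap]
    simp only [List.length_map, length_allVecs, List.map_const', List.sum_replicate,
      length_blocks, smul_eq_mul]
    positivity

/-- The levels and the embedding for an arbitrary exponent. -/
theorem levelEmb (p : ℝ≥0∞) [hp1 : Fact (1 ≤ p)] :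
    ∃ ℓ : ℕ → ℝ, Levels ℓ ∧ ∀ X : BoundedGraph Δ, ∃ κ : ℝ,
      LevelEmb p X.matrix (dim (decide (p = ∞)) Δ X.matrix) (vec (decide (p = ∞)) Δ X.matrix)
        κ ℓ := by
  by_cases hp : p = ∞
  · subst hp
    refine ⟨levInf, levels_inf, fun X => ⟨1, ?_⟩⟩
    simpa using levelEmb_inf X
  · refine ⟨levFin Δ p, levels_fin Δ hp1.out hp, fun X => ?_⟩
    simpa [hp] using levelEmb_fin X p hp

/-- The instance produced by the reduction. -/
noncomputable def reduceF (p : ℝ≥0∞) [hp1 : Fact (1 ≤ p)] (X : BoundedGraph Δ) : PointSet where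
  s := dim (decide (p = ∞)) Δ X.matrix
  n := 2 * (kept X.matrix).length + 1
  s_pos := dim_pos X _
  n_pos := Nat.succ_pos _
  pts := ptsOf (decide (p = ∞)) Δ X.matrix
  length_pts := by rw [ptsOf, List.length_map, length_pointList]
  length_of_mem := by
    intro x hx
    rw [ptsOf, List.mem_map] at hx
    obtain ⟨y, _, rfl⟩ := hx
    exact length_vec X _ y
  nodup := by
    obtain ⟨ℓ, hℓ, h⟩ := levelEmb (Δ := Δ) p
    obtain ⟨κ, hκ⟩ := h X
    refine List.Nodup.map_on ?_ (nodup_pointList (nodup_kept X))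
    intro x hx y hy he
    exact vec_inj hκ hℓ hx hy he

end

end Pool.Agent.MP_311ff9_lc
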