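import Mathlib

/-!
# The combinatorial core

Points are pairs `(tag, v)`; tag `0` marks the points of the graph, tags `1` and `2` the two
private partners of a graph point, all other tags are dummies.
-/

namespace Pool.Agent.MP_311ff9_lc

/-- Weight of a pair of points. -/
def wt (adj : ℕ → ℕ → Bool) (x y : ℕ × ℕ) : ℕ :=
  if x.1 = 0 ∧ y.1 = 0 ∧ adj x.2 y.2 = true then 3
  else if x.2 = y.2 ∧ ((x.1 = 0 ∧ (y.1 = 1 ∨ y.1 = 2)) ∨ (y.1 = 0 ∧ (x.1 = 1 ∨ x.1 = 2))) then 1
  else 0

/-- The triple consists of the points of a triangle of the graph. -/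
def isTri (adj : ℕ → ℕ → Bool) (t : (ℕ × ℕ) × (ℕ × ℕ) × (ℕ × ℕ)) : Bool :=
  decide (t.1.1 = 0) && decide (t.2.1.1 = 0) && decide (t.2.2.1 = 0) &&
    adj t.1.2 t.2.1.2 && adj t.2.1.2 t.2.2.2 && adj t.1.2 t.2.2.2

section
variable (adj : ℕ → ℕ → Bool) (e : ℕ → ℝ)

/-- Potential. -/
def pot (x : ℕ × ℕ) : ℝ := if x.1 = 0 then 2 * e 1 else 0

variable {adj e}

theorem wt_nonV {x y : ℕ × ℕ} (hx : x.1 ≠ 0) (hy : y.1 ≠ 0) : wt adj x y = 0 := by
  simp [wt, hx, hy]

theorem wt_V_nonV {x y : ℕ × ℕ} (hy : y.1 ≠ 0) : wt adj x y = 0 ∨ wt adj x y = 1 := by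
  unfold wt
  split_ifs with h1 h2
  · exact absurd h1.2.1 hy
  · right; rfl
  · left; rfl

theorem wt_nonV_V {x y : ℕ × ℕ} (hx : x.1 ≠ 0) : wt adj x y = 0 ∨ wt adj x y = 1 := by
  unfold wt
  split_ifs with h1 h2
  · exact absurd h1.1 hx
  · right; rfl
  · left; rfl

theorem wt_VV {x y : ℕ × ℕ} (hx : x.1 = 0) (hy : y.1 = 0) :
    wt adj x y = if adj x.2 y.2 = true then 3 else 0 := by
  unfold wt
  simp [hx, hy]

theorem wt_ne {x y : ℕ × ℕ} (hy : y.1 ≠ 0) (h : x.2 ≠ y.2) : wt adj x y = 0 := by
  unfold wt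
  simp [hy, h]

theorem wt_ne' {x y : ℕ × ℕ} (hx : x.1 ≠ 0) (h : x.2 ≠ y.2) : wt adj x y = 0 := by
  unfold wt
  simp [hx, h]

/-- The local inequality. -/
theorem triple_le (h0 : e 0 = 0) (h1 : 0 ≤ e 1) (h3 : 2 * e 1 ≤ e 3) (h3' : e 3 ≤ 3 * e 1)
    {x y z : ℕ × ℕ} (hxy : x ≠ y) (hyz : y ≠ z) (hxz : x ≠ z) :
    e (wt adj x y) + e (wt adj y z) + e (wt adj x z) ≤
      pot e x + pot e y + pot e z +
        (if isTri adj (x, y, z) = true then 3 * e 3 - 6 * e 1 else 0) := by
  have key : (0 : ℝ) ≤ if isTri adj (x, y, z) = true then 3 * e 3 - 6 * e 1 else 0 := by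
    split_ifs <;> linarith
  have ne2 : ∀ {a b : ℕ × ℕ}, a ≠ b → a.1 = 0 → b.1 = 0 → a.2 ≠ b.2 := by
    intro a b hab ha hb h
    exact hab (Prod.ext (ha.trans hb.symm) h)
  by_cases hx : x.1 = 0 <;> by_cases hy : y.1 = 0 <;> by_cases hz : z.1 = 0
  · -- three graph points
    rw [wt_VV hx hy, wt_VV hy hz, wt_VV hx hz]
    simp only [pot, hx, hy, hz, if_true]
    by_cases a1 : adj x.2 y.2 = true <;> by_cases a2 : adj y.2 z.2 = true <;>
      by_cases a3 : adj x.2 z.2 = true <;>
      simp [isTri, hx, hy, hz, a1, a2, a3, h0] <;> linarith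
  · -- x, y graph points
    have hw := ne2 hxy hx hy
    have e1 : e (wt adj x y) ≤ 3 * e 1 := by
      rw [wt_VV hx hy]; split_ifs <;> linarith
    have e2 : e (wt adj y z) + e (wt adj x z) ≤ e 1 := by
      by_cases h : y.2 = z.2
      · have : x.2 ≠ z.2 := fun h' => hw (h'.trans h.symm)
        rw [wt_ne hz this, h0]
        rcases wt_V_nonV (adj := adj) (x := y) hz with h | h <;> rw [h] <;> linarith
      · rw [wt_ne hz h, h0]
        rcases wt_V_nonV (adj := adj) (x := x) hz with h | h <;> rw [h] <;> linarith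
    have : pot e x + pot e y + pot e z = 4 * e 1 := by simp [pot, hx, hy, hz]; ring
    linarith
  · -- x, z graph points
    have hw := ne2 hxz hx hz
    have e1 : e (wt adj x z) ≤ 3 * e 1 := by
      rw [wt_VV hx hz]; split_ifs <;> linarith
    have e2 : e (wt adj x y) + e (wt adj y z) ≤ e 1 := by
      by_cases h : x.2 = y.2
      · have : y.2 ≠ z.2 := fun h' => hw (h.trans h')
        rw [wt_ne' hy this, h0]
        rcases wt_V_nonV (adj := adj) (x := x) hy with h | h <;> rw [h] <;> linarith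
      · rw [wt_ne hy h, h0]
        rcases wt_nonV_V (adj := adj) (y := z) hy with h | h <;> rw [h] <;> linarith
    have : pot e x + pot e y + pot e z = 4 * e 1 := by simp [pot, hx, hy, hz]; ring
    linarith
  · -- x graph point
    have e1 : e (wt adj x y) ≤ e 1 := by
      rcases wt_V_nonV (adj := adj) (x := x) hy with h | h <;> rw [h] <;> linarith
    have e2 : e (wt adj x z) ≤ e 1 := by
      rcases wt_V_nonV (adj := adj) (x := x) hz with h | h <;> rw [h] <;> linarith
    have e3 : e (wt adj y z) = 0 := by rw [wt_nonV hy hz, h0]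
    have : pot e x + pot e y + pot e z = 2 * e 1 := by simp [pot, hx, hy, hz]
    linarith
  · -- y, z graph points
    have hw := ne2 hyz hy hz
    have e1 : e (wt adj y z) ≤ 3 * e 1 := by
      rw [wt_VV hy hz]; split_ifs <;> linarith
    have e2 : e (wt adj x y) + e (wt adj x z) ≤ e 1 := by
      by_cases h : x.2 = y.2
      · have : x.2 ≠ z.2 := fun h' => hw (h.symm.trans h')
        rw [wt_ne' hx this, h0]
        rcases wt_nonV_V (adj := adj) (y := y) hx with h | h <;> rw [h] <;> linarith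
      · rw [wt_ne' hx h, h0]
        rcases wt_nonV_V (adj := adj) (y := z) hx with h | h <;> rw [h] <;> linarith
    have : pot e x + pot e y + pot e z = 4 * e 1 := by simp [pot, hx, hy, hz]; ring
    linarith
  · -- y graph point
    have e1 : e (wt adj x y) ≤ e 1 := by
      rcases wt_nonV_V (adj := adj) (y := y) hx with h | h <;> rw [h] <;> linarith
    have e2 : e (wt adj y z) ≤ e 1 := by
      rcases wt_V_nonV (adj := adj) (x := y) hz with h | h <;> rw [h] <;> linarith
    have e3 : e (wt adj x z) = 0 := by rw [wt_nonV hx hz, h0]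
    have : pot e x + pot e y + pot e z = 2 * e 1 := by simp [pot, hx, hy, hz]
    linarith
  · -- z graph point
    have e1 : e (wt adj x z) ≤ e 1 := by
      rcases wt_nonV_V (adj := adj) (y := z) hx with h | h <;> rw [h] <;> linarith
    have e2 : e (wt adj y z) ≤ e 1 := by
      rcases wt_nonV_V (adj := adj) (y := z) hy with h | h <;> rw [h] <;> linarith
    have e3 : e (wt adj x y) = 0 := by rw [wt_nonV hx hy, h0]
    have : pot e x + pot e y + pot e z = 2 * e 1 := by simp [pot, hx, hy, hz]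
    linarith
  · rw [wt_nonV hx hy, wt_nonV hy hz, wt_nonV hx hz, h0]
    have : pot e x + pot e y + pot e z = 0 := by simp [pot, hx, hy, hz]
    linarith

end

/-! ### The point list -/

/-- The points: six for every kept vertex and three extra dummies. -/
def pointList (K : List ℕ) : List (ℕ × ℕ) :=
  (K.flatMap fun v => [(0, v), (1, v), (2, v), (3, v), (4, v), (5, v)]) ++ [(6, 0), (7, 0), (8, 0)]

theorem mem_pointList {K : List ℕ} {x : ℕ × ℕ} :
    x ∈ pointList K ↔ (x.1 < 6 ∧ x.2 ∈ K) ∨ (6 ≤ x.1 ∧ x.1 < 9 ∧ x.2 = 0) := by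
  obtain ⟨t, v⟩ := x
  simp only [pointList, List.mem_append, List.mem_flatMap, List.mem_cons, Prod.mk.injEq,
    List.not_mem_nil, or_false]
  constructor
  · rintro (⟨a, ha, h⟩ | h)
    · left
      rcases h with ⟨rfl, rfl⟩ | ⟨rfl, rfl⟩ | ⟨rfl, rfl⟩ | ⟨rfl, rfl⟩ | ⟨rfl, rfl⟩ | ⟨rfl, rfl⟩ <;>
        exact ⟨by norm_num, ha⟩
    · right
      rcases h with ⟨rfl, rfl⟩ | ⟨rfl, rfl⟩ | ⟨rfl, rfl⟩ <;> simp
  · rintro (⟨h, hv⟩ | ⟨h1, h2, rfl⟩)
    · left
      refine ⟨v, hv, ?_⟩
      interval_cases t <;> simp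
    · right
      interval_cases t <;> simp

theorem length_pointList (K : List ℕ) : (pointList K).length = 3 * (2 * K.length + 1) := by
  simp only [pointList, List.length_append, List.length_cons, List.length_nil]
  induction K with
  | nil => simp
  | cons v K ih => simp only [List.flatMap_cons, List.length_append, List.length_cons,
      List.length_nil] at ih ⊢; omega

theorem nodup_pointList {K : List ℕ} (hK : K.Nodup) : (pointList K).Nodup := by
  unfold pointList
  rw [List.nodup_append]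
  refine ⟨?_, by simp, ?_⟩
  · rw [List.nodup_flatMap]
    refine ⟨fun v _ => by simp, ?_⟩
    refine hK.imp ?_
    intro a b hab
    simp only [Function.onFun]
    intro x hx hx'
    simp only [List.mem_cons, List.not_mem_nil, or_false] at hx hx'
    apply hab
    rcases hx with rfl | rfl | rfl | rfl | rfl | rfl <;> simp at hx' <;> exact hx'
  · intro x hx y hy
    simp only [List.mem_flatMap, List.mem_cons, List.not_mem_nil, or_false] at hx hy
    obtain ⟨a, _, hx⟩ := hx
    rcases hx with rfl | rfl | rfl | rfl | rfl | rfl <;> rcases hy with rfl | rfl | rfl <;> simp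

theorem sum_pot (e : ℕ → ℝ) (K : List ℕ) :
    ((pointList K).map (pot e)).sum = 2 * e 1 * K.length := by
  simp only [pointList, List.map_append, List.sum_append]
  have h2 : (([(6, 0), (7, 0), (8, 0)] : List (ℕ × ℕ)).map (pot e)).sum = 0 := by
    simp [pot]
  rw [h2, add_zero]
  induction K with
  | nil => simp
  | cons v K ih =>
    rw [List.flatMap_cons, List.map_append, List.sum_append, ih]
    simp [pot]
    ring

/-- the three members of a triple -/
def flat3 {α : Type} (π : List (α × α × α)) : List α := π.flatMap fun t => [t.1, t.2.1, t.2.2]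

theorem flat3_cons {α : Type} (t : α × α × α) (π : List (α × α × α)) :
    flat3 (t :: π) = t.1 :: t.2.1 :: t.2.2 :: flat3 π := rfl

theorem length_flat3 {α : Type} (π : List (α × α × α)) : (flat3 π).length = 3 * π.length := by
  induction π with
  | nil => rfl
  | cons t π ih => rw [flat3_cons]; simp [ih]; ring

/-- Upper bound for the weight of a partition. -/
theorem partition_le {adj : ℕ → ℕ → Bool} {e : ℕ → ℝ} (h0 : e 0 = 0) (h1 : 0 ≤ e 1)
    (h3 : 2 * e 1 ≤ e 3) (h3' : e 3 ≤ 3 * e 1) (π : List ((ℕ × ℕ) × (ℕ × ℕ) × (ℕ × ℕ)))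
    (hπ : (flat3 π).Nodup) :
    (π.map fun t => e (wt adj t.1 t.2.1) + e (wt adj t.2.1 t.2.2) + e (wt adj t.1 t.2.2)).sum ≤
      ((flat3 π).map (pot e)).sum +
        (3 * e 3 - 6 * e 1) * (π.filter (isTri adj)).length := by
  induction π with
  | nil => simp [flat3]
  | cons t π ih =>
    rw [flat3_cons] at hπ ⊢
    simp only [List.nodup_cons, List.mem_cons, not_or] at hπ
    obtain ⟨⟨h12, h13, _⟩, ⟨h23, _⟩, _, hn⟩ := hπ
    have := triple_le (adj := adj) h0 h1 h3 h3' h12 h23 h13
    have ih' := ih hn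
    simp only [List.map_cons, List.sum_cons, List.filter_cons]
    split_ifs with hT
    · have hT' : isTri adj (t.1, t.2.1, t.2.2) = true := hT
      rw [if_pos hT'] at this
      simp only [List.length_cons, Nat.cast_add, Nat.cast_one]
      linarith
    · have hT' : ¬ isTri adj (t.1, t.2.1, t.2.2) = true := hT
      rw [if_neg hT'] at this
      linarith

/-! ### The partition built from a packing -/

/-- The triples used for a packed triangle. -/
def packed (t : ℕ × ℕ × ℕ) : List ((ℕ × ℕ) × (ℕ × ℕ) × (ℕ × ℕ)) :=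
  [((0, t.1), (0, t.2.1), (0, t.2.2)),
    ((1, t.1), (2, t.1), (3, t.1)), ((1, t.2.1), (2, t.2.1), (3, t.2.1)),
    ((1, t.2.2), (2, t.2.2), (3, t.2.2)),
    ((4, t.1), (4, t.2.1), (4, t.2.2)), ((5, t.1), (5, t.2.1), (5, t.2.2))]

/-- The triples used for an unpacked vertex. -/
def unpacked (v : ℕ) : List ((ℕ × ℕ) × (ℕ × ℕ) × (ℕ × ℕ)) :=
  [((0, v), (1, v), (2, v)), ((3, v), (4, v), (5, v))]

/-- The partition built from a packing `S` and the list `R` of the remaining vertices. -/
def build (S : List (ℕ × ℕ × ℕ)) (R : List ℕ) : List ((ℕ × ℕ) × (ℕ × ℕ) × (ℕ × ℕ)) :=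
  S.flatMap packed ++ R.flatMap unpacked ++ [((6, 0), (7, 0), (8, 0))]

/-- the six points of a vertex -/
def six (v : ℕ) : List (ℕ × ℕ) := [(0, v), (1, v), (2, v), (3, v), (4, v), (5, v)]

theorem perm_packed (t : ℕ × ℕ × ℕ) :
    (flat3 (packed t)).Perm (six t.1 ++ six t.2.1 ++ six t.2.2) := by
  rw [← Multiset.coe_eq_coe]
  simp only [flat3, packed, six, List.flatMap_cons, List.flatMap_nil, List.cons_append,
    List.nil_append, ← Multiset.cons_coe, ← Multiset.singleton_add]
  abel

theorem flat3_append {α : Type} (π π' : List (α × α × α)) :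
    flat3 (π ++ π') = flat3 π ++ flat3 π' := by simp [flat3]

theorem perm_build {S : List (ℕ × ℕ × ℕ)} {R K : List ℕ} (h : (flat3 S ++ R).Perm K) :
    (flat3 (build S R)).Perm (pointList K) := by
  have h1 : ∀ S : List (ℕ × ℕ × ℕ), (flat3 (S.flatMap packed)).Perm ((flat3 S).flatMap six) := by
    intro S
    induction S with
    | nil => exact List.Perm.refl _
    | cons t S ih =>
      rw [List.flatMap_cons, flat3_append, flat3_cons]
      simp only [List.flatMap_cons]
      have := (perm_packed t).append ih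
      simpa [List.append_assoc] using this
  have h2 : ∀ R : List ℕ, flat3 (R.flatMap unpacked) = R.flatMap six := by
    intro R
    induction R with
    | nil => rfl
    | cons v R ih => rw [List.flatMap_cons, flat3_append, ih, List.flatMap_cons]; rfl
  unfold build pointList
  rw [flat3_append, flat3_append, h2]
  have h3 : ((flat3 S ++ R).flatMap six).Perm (K.flatMap six) := h.flatMap_right six
  rw [List.flatMap_append] at h3
  exact (((h1 S).append_right _).trans h3).append_right _

theorem value_build {adj : ℕ → ℕ → Bool} {e : ℕ → ℝ} (h0 : e 0 = 0) {S : List (ℕ × ℕ × ℕ)}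
    (R : List ℕ)
    (hS : ∀ t ∈ S, adj t.1 t.2.1 = true ∧ adj t.2.1 t.2.2 = true ∧ adj t.1 t.2.2 = true) :
    ((build S R).map fun t =>
      e (wt adj t.1 t.2.1) + e (wt adj t.2.1 t.2.2) + e (wt adj t.1 t.2.2)).sum =
      3 * e 3 * S.length + 2 * e 1 * R.length := by
  unfold build
  rw [List.map_append, List.map_append, List.sum_append, List.sum_append]
  have h1 : ∀ S : List (ℕ × ℕ × ℕ), (∀ t ∈ S, adj t.1 t.2.1 = true ∧ adj t.2.1 t.2.2 = true ∧
      adj t.1 t.2.2 = true) → ((S.flatMap packed).map fun t =>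
      e (wt adj t.1 t.2.1) + e (wt adj t.2.1 t.2.2) + e (wt adj t.1 t.2.2)).sum =
      3 * e 3 * S.length := by
    intro S
    induction S with
    | nil => intro _; simp
    | cons t S ih =>
      intro h
      rw [List.flatMap_cons, List.map_append, List.sum_append,
        ih fun s hs => h s (List.mem_cons_of_mem _ hs)]
      obtain ⟨a1, a2, a3⟩ := h t List.mem_cons_self
      simp [packed, wt, a1, a2, a3, h0]
      ring
  have h2 : ∀ R : List ℕ, ((R.flatMap unpacked).map fun t =>
      e (wt adj t.1 t.2.1) + e (wt adj t.2.1 t.2.2) + e (wt adj t.1 t.2.2)).sum =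
      2 * e 1 * R.length := by
    intro R
    induction R with
    | nil => simp
    | cons v R ih =>
      rw [List.flatMap_cons, List.map_append, List.sum_append, ih]
      simp [unpacked, wt, h0]
      ring
  rw [h1 S hS, h2 R]
  simp [wt, h0]

end Pool.Agent.MP_311ff9_lc
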