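import Mathlib

/-!
# Walsh-Hadamard vectors, and `L_p` distances of lists of coordinates
-/

namespace Pool.Agent.MP_311ff9_lc

/-- both one-bit extensions of all words of a list -/
def double (acc : List (List Bool)) : List (List Bool) :=
  acc.map (fun s => false :: s) ++ acc.map (fun s => true :: s)

/-- all words of length `k` -/
def allVecs : ℕ → List (List Bool)
  | 0 => [[]]
  | k + 1 => double (allVecs k)

theorem length_allVecs (k : ℕ) : (allVecs k).length = 2 ^ k := by
  induction k with
  | zero => rfl
  | succ k ih => simp [allVecs, double, ih]; ring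

theorem length_of_mem_allVecs {k : ℕ} {s : List Bool} (h : s ∈ allVecs k) : s.length = k := by
  induction k generalizing s with
  | zero => simp [allVecs] at h; simp [h]
  | succ k ih =>
    simp only [allVecs, double, List.mem_append, List.mem_map] at h
    rcases h with ⟨a, ha, rfl⟩ | ⟨a, ha, rfl⟩ <;> simp [ih ha]

theorem nodup_allVecs (k : ℕ) : (allVecs k).Nodup := by
  induction k with
  | zero => simp [allVecs]
  | succ k ih =>
    simp only [allVecs, double]
    rw [List.nodup_append]
    refine ⟨ih.map fun a b h => by simpa using h, ih.map fun a b h => by simpa using h, ?_⟩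
    intro a ha b hb
    simp only [List.mem_map] at ha hb
    obtain ⟨x, _, rfl⟩ := ha
    obtain ⟨y, _, rfl⟩ := hb
    simp

/-- inner product of two words -/
def ip (a s : List Bool) : Bool := (a.zip s).foldl (fun r q => xor r (q.1 && q.2)) false

theorem ip_aux (l : List (Bool × Bool)) (r : Bool) :
    l.foldl (fun r q => xor r (q.1 && q.2)) r =
      xor r (l.foldl (fun r q => xor r (q.1 && q.2)) false) := by
  induction l generalizing r with
  | nil => simp
  | cons q l ih =>
    rw [List.foldl_cons, List.foldl_cons, ih, ih (xor false (q.1 && q.2))]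
    simp [Bool.xor_assoc]

theorem ip_cons (a s : Bool) (as ss : List Bool) :
    ip (a :: as) (s :: ss) = xor (a && s) (ip as ss) := by
  unfold ip
  rw [List.zip_cons_cons, List.foldl_cons, ip_aux]
  simp

theorem countP_not {α : Type} (l : List α) (p : α → Bool) :
    l.countP (fun x => !(p x)) = l.length - l.countP p := by
  induction l with
  | nil => rfl
  | cons x l ih =>
    rw [List.countP_cons, List.countP_cons, List.length_cons, ih]
    have := List.countP_le_length (l := l) (p := p)
    cases p x <;> simp <;> omega

/-- Two distinct words of length `k` have different inner products with exactly half of the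
words. -/
theorem count_ip (k : ℕ) : ∀ (a b : List Bool), a.length = k → b.length = k → a ≠ b →
    2 * (allVecs k).countP (fun s => xor (ip a s) (ip b s)) = 2 ^ k := by
  induction k with
  | zero =>
    intro a b ha hb hab
    rw [List.length_eq_zero_iff] at ha hb
    exact absurd (ha.trans hb.symm) hab
  | succ k ih =>
    intro a b ha hb hab
    obtain ⟨a0, a, rfl⟩ := List.exists_cons_of_length_eq_add_one ha
    obtain ⟨b0, b, rfl⟩ := List.exists_cons_of_length_eq_add_one hb
    simp only [List.length_cons, Nat.add_right_cancel_iff] at ha hb
    simp only [allVecs, double, List.countP_append, List.countP_map, Function.comp_def]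
    simp only [ip_cons, Bool.and_false, Bool.false_xor, Bool.and_true]
    have hlen := length_allVecs k
    by_cases h0 : a0 = b0
    · subst h0
      have hab' : a ≠ b := fun h => hab (by rw [h])
      have e : ∀ s, ((a0 ^^ ip a s) ^^ (a0 ^^ ip b s)) = (ip a s ^^ ip b s) := by
        intro s; cases a0 <;> cases ip a s <;> cases ip b s <;> rfl
      simp only [e]
      have := ih a b ha hb hab'
      rw [pow_succ]; omega
    · have e : ∀ s, ((a0 ^^ ip a s) ^^ (b0 ^^ ip b s)) = !(ip a s ^^ ip b s) := by
        intro s
        cases a0 <;> cases b0 <;> simp at h0 <;> cases ip a s <;> cases ip b s <;> rfl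
      simp only [e]
      rw [countP_not, hlen, pow_succ]
      have := List.countP_le_length (l := allVecs k) (p := fun s => (ip a s ^^ ip b s))
      omega

/-- The same with arbitrary signs. -/
theorem count_signed (k : ℕ) (a b : List Bool) (ha : a.length = k) (hb : b.length = k)
    (hab : a ≠ b) (x y : Bool) :
    2 * (allVecs k).countP (fun s => xor (xor x (ip a s)) (xor y (ip b s))) = 2 ^ k := by
  have h := count_ip k a b ha hb hab
  by_cases hxy : x = y
  · subst hxy
    have e : ∀ s, ((x ^^ ip a s) ^^ (x ^^ ip b s)) = (ip a s ^^ ip b s) := by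
      intro s; cases x <;> cases ip a s <;> cases ip b s <;> rfl
    simp only [e]; exact h
  · have e : ∀ s, ((x ^^ ip a s) ^^ (y ^^ ip b s)) = !(ip a s ^^ ip b s) := by
      intro s
      cases x <;> cases y <;> simp at hxy <;> cases ip a s <;> cases ip b s <;> rfl
    simp only [e]
    rw [countP_not, length_allVecs]
    have := List.countP_le_length (l := allVecs k) (p := fun s => (ip a s ^^ ip b s))
    rw [length_allVecs] at this
    omega

/-- Opposite signs: all coordinates differ. -/
theorem count_opposite (k : ℕ) (a : List Bool) (x y : Bool) (h : x ≠ y) :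
    (allVecs k).countP (fun s => xor (xor x (ip a s)) (xor y (ip a s))) = 2 ^ k := by
  have e : ∀ s, ((x ^^ ip a s) ^^ (y ^^ ip a s)) = true := by
    intro s
    cases x <;> cases y <;> simp at h <;> cases ip a s <;> rfl
  simp only [e]
  rw [List.countP_true, length_allVecs]

/-! ### growing the list of words -/

/-- repeated `tail` -/
def dropBy {β γ : Type} (L : List β) (acc : List γ) : List β := acc.foldl (fun r _ => r.tail) L

theorem dropBy_eq {β γ : Type} (acc : List γ) : ∀ L : List β, dropBy L acc = L.drop acc.length := by
  induction acc with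
  | nil => intro L; rfl
  | cons x acc ih =>
    intro L
    have : dropBy L (x :: acc) = dropBy L.tail acc := rfl
    rw [this, ih, List.length_cons, List.drop_tail]

/-- one step of growing -/
def growStep {β : Type} (L : List β) (acc : List (List Bool)) : List (List Bool) :=
  if (dropBy L acc).isEmpty = true then acc else double acc

/-- the words of length `k`, where `2 ^ k` is at least the length of `L` -/
def grow {β : Type} (L : List β) : List (List Bool) := L.foldl (fun acc _ => growStep L acc) [[]]

theorem growStep_allVecs {β : Type} (L : List β) (j : ℕ) :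
    growStep L (allVecs j) = if L.length ≤ 2 ^ j then allVecs j else allVecs (j + 1) := by
  unfold growStep
  rw [dropBy_eq, length_allVecs]
  by_cases h : L.length ≤ 2 ^ j
  · rw [if_pos h, if_pos]
    rw [List.drop_eq_nil_of_le h]; rfl
  · rw [if_neg h, if_neg]
    · rfl
    · rw [List.isEmpty_iff, List.drop_eq_nil_iff]; exact h

theorem grow_aux {β γ : Type} (L : List β) (l : List γ) : ∀ j : ℕ,
    ∃ k, l.foldl (fun acc _ => growStep L acc) (allVecs j) = allVecs k ∧
      (L.length ≤ 2 ^ k ∨ k = j + l.length) ∧ (k = j ∨ 2 ^ k < 2 * L.length) ∧ k ≤ j + l.length := by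
  induction l with
  | nil => intro j; exact ⟨j, rfl, Or.inr rfl, Or.inl rfl, le_refl _⟩
  | cons x l ih =>
    intro j
    rw [List.foldl_cons, growStep_allVecs]
    split_ifs with h
    · obtain ⟨k, h1, h2, h3, h4⟩ := ih j
      refine ⟨k, h1, Or.inl ?_, h3, by simp; omega⟩
      rcases h2 with h2 | h2
      · exact h2
      · exact h.trans (Nat.pow_le_pow_right (by norm_num) (by omega))
    · obtain ⟨k, h1, h2, h3, h4⟩ := ih (j + 1)
      refine ⟨k, h1, ?_, ?_, by simp; omega⟩
      · rcases h2 with h2 | h2
        · exact Or.inl h2
        · right; simp; omega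
      · right
        rcases h3 with h3 | h3
        · rw [h3, pow_succ]; omega
        · exact h3

theorem grow_eq {β : Type} (L : List β) : ∃ k, grow L = allVecs k ∧ L.length ≤ 2 ^ k := by
  obtain ⟨k, h1, h2, _⟩ := grow_aux L L 0
  refine ⟨k, h1, ?_⟩
  rcases h2 with h2 | h2
  · exact h2
  · rw [h2, zero_add]; exact Nat.lt_two_pow_self.le

end Pool.Agent.MP_311ff9_lc
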