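import Pool.Agent.Lib.MP_311ff9_lc.Blocks
import Pool.Agent.Lib.MP_311ff9_lc.Hadamard

/-!
# The point sets and their distances
-/

namespace Pool.Agent.MP_311ff9_lc

open scoped ENNReal

/-- the word assigned to a point by a table -/
def word (tbl : List ((ℕ × ℕ) × List Bool)) (x : ℕ × ℕ) : List Bool :=
  ((tbl.find? fun q => decide (q.1 = x)).map fun q => q.2).getD []

/-- coordinate of `x` at (block, word), for finite `p` -/
def coordFin (col : List ((ℕ × ℕ) × ℕ)) (tbl : List ((ℕ × ℕ) × List Bool)) (x : ℕ × ℕ)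
    (q : (ℕ × ℕ) × List Bool) : ℚ :=
  if xor (rep col q.1 x).1 (ip (word tbl (rep col q.1 x).2) q.2) = true then -1 else 1

/-- index set of the coordinates, for finite `p` -/
def indexFin (Δ : ℕ) (W : List (List Bool)) : List ((ℕ × ℕ) × List Bool) :=
  (blocks Δ).flatMap fun b => W.map fun s => (b, s)

/-- the three distance levels for `p = ∞` -/
def lvl (w : ℕ) : ℚ := if w = 3 then 7 else if w = 1 then 5 else 4

/-- coordinate of `x` at the point `y`, for `p = ∞` -/
def coordInf (adj : ℕ → ℕ → Bool) (x y : ℕ × ℕ) : ℚ := if x = y then 0 else lvl (wt adj x y)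

/-! ### general distance formulas -/

theorem sum_fin_get {ι : Type} (cs : List ι) (h : ι → ℝ) :
    ∑ i : Fin cs.length, h (cs.get i) = (cs.map h).sum := by
  rw [← List.sum_ofFn]
  congr 1
  apply List.ext_getElem
  · simp
  · intro i h1 h2
    simp

theorem getD_map_fin {ι : Type} (cs : List ι) (F : ι → ℚ) (i : Fin cs.length) :
    (cs.map F).getD i 0 = F (cs.get i) := by
  rw [List.getD_eq_getElem _ _ (by simp)]
  simp

theorem lpDist_fin {ι : Type} (p : ℝ≥0∞) [Fact (1 ≤ p)] (hp : p ≠ ∞) (cs : List ι)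
    (F G : ι → ℚ) (hF : ∀ c ∈ cs, F c = 1 ∨ F c = -1) (hG : ∀ c ∈ cs, G c = 1 ∨ G c = -1) :
    lpDist p cs.length (cs.map F) (cs.map G) =
      ((2 : ℝ) ^ p.toReal * (cs.countP fun c => decide (F c ≠ G c))) ^ (1 / p.toReal) := by
  have hp1 : (1 : ℝ≥0∞) ≤ p := Fact.out
  have hp0 : 0 < p.toReal := by
    have : (1 : ℝ) ≤ p.toReal := by
      rw [← ENNReal.toReal_one]
      exact ENNReal.toReal_mono hp hp1
    linarith
  unfold lpDist
  rw [PiLp.dist_eq_sum hp0]
  congr 1
  simp only [getD_map_fin, Real.dist_eq]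
  rw [sum_fin_get cs (fun c => |((F c : ℚ) : ℝ) - ((G c : ℚ) : ℝ)| ^ p.toReal)]
  have h2 : (2 : ℝ) ^ p.toReal ≠ 0 := (Real.rpow_pos_of_pos (by norm_num) _).ne'
  induction cs with
  | nil => simp
  | cons c cs ih =>
    have ih' := ih (fun d hd => hF d (List.mem_cons_of_mem _ hd))
      (fun d hd => hG d (List.mem_cons_of_mem _ hd))
    rw [List.map_cons, List.sum_cons, ih', List.countP_cons]
    rcases hF c List.mem_cons_self with h | h <;> rcases hG c List.mem_cons_self with h' | h' <;>
      rw [h, h']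
    · simp [Real.zero_rpow hp0.ne']
    · norm_num
      ring
    · norm_num
      ring
    · simp [Real.zero_rpow hp0.ne']

theorem lpDist_inf {ι : Type} [Fact ((1 : ℝ≥0∞) ≤ ∞)] (cs : List ι) (F G : ι → ℚ) (D : ℚ)
    (h1 : ∀ c ∈ cs, |F c - G c| ≤ D) (c₀ : ι) (hc₀ : c₀ ∈ cs) (h2 : |F c₀ - G c₀| = D) :
    lpDist ∞ cs.length (cs.map F) (cs.map G) = D := by
  unfold lpDist
  rw [PiLp.dist_eq_iSup]
  simp only [getD_map_fin, Real.dist_eq]
  obtain ⟨i₀, hi₀⟩ := List.mem_iff_get.1 hc₀
  have : Nonempty (Fin cs.length) := ⟨i₀⟩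
  have hb : ∀ i : Fin cs.length, |((F (cs.get i) : ℚ) : ℝ) - ((G (cs.get i) : ℚ) : ℝ)| ≤ D := by
    intro i
    have := h1 _ (List.get_mem cs i)
    exact_mod_cast this
  refine le_antisymm (ciSup_le hb) ?_
  have : (D : ℝ) = |((F (cs.get i₀) : ℚ) : ℝ) - ((G (cs.get i₀) : ℚ) : ℝ)| := by
    rw [hi₀]
    exact_mod_cast h2.symm
  rw [this]
  exact le_ciSup (f := fun i : Fin cs.length =>
    |((F (cs.get i) : ℚ) : ℝ) - ((G (cs.get i) : ℚ) : ℝ)|) ⟨D, by
      rintro _ ⟨i, rfl⟩; exact hb i⟩ i₀

/-! ### finite `p` -/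

section fin
variable {Δ : ℕ} {adjb : ℕ → ℕ → Bool} {K : List ℕ} {col : List ((ℕ × ℕ) × ℕ)}

theorem word_zip {P : List (ℕ × ℕ)} {W : List (List Bool)}
    (hlen : P.length ≤ W.length) {x : ℕ × ℕ} (hx : x ∈ P) : (x, word (P.zip W) x) ∈ P.zip W := by
  have hex : ∃ q ∈ P.zip W, q.1 = x := by
    have : x ∈ (P.zip W).map Prod.fst := by rw [List.map_fst_zip hlen]; exact hx
    rw [List.mem_map] at this
    exact this
  have hsome : ((P.zip W).find? fun q => decide (q.1 = x)).isSome = true := by
    rw [List.find?_isSome]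
    obtain ⟨q, hq, h⟩ := hex
    exact ⟨q, hq, by simpa using h⟩
  obtain ⟨q, hq⟩ := Option.isSome_iff_exists.1 hsome
  have h1 := List.mem_of_find?_eq_some hq
  have h2 := List.find?_some hq
  simp only [decide_eq_true_eq] at h2
  have : word (P.zip W) x = q.2 := by unfold word; rw [hq]; rfl
  rw [this, ← h2]
  exact h1

theorem word_inj {P : List (ℕ × ℕ)} {W : List (List Bool)} (hW : W.Nodup)
    (hlen : P.length ≤ W.length) {x y : ℕ × ℕ} (hx : x ∈ P) (hy : y ∈ P)
    (h : word (P.zip W) x = word (P.zip W) y) : x = y := by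
  have h1 := word_zip hlen hx
  have h2 := word_zip hlen hy
  rw [← h] at h2
  obtain ⟨i, hi, e1⟩ := List.mem_iff_getElem.1 h1
  obtain ⟨j, hj, e2⟩ := List.mem_iff_getElem.1 h2
  simp only [List.length_zip, lt_min_iff] at hi hj
  simp only [List.getElem_zip, Prod.mk.injEq] at e1 e2
  have : i = j := (hW.getElem_inj_iff (hi := hi.2) (hj := hj.2)).1 (e1.2.trans e2.2.symm)
  subst this
  exact e1.1.symm.trans e2.1

theorem word_mem {P : List (ℕ × ℕ)} {W : List (List Bool)}
    (hlen : P.length ≤ W.length) {x : ℕ × ℕ} (hx : x ∈ P) : word (P.zip W) x ∈ W :=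
  (List.of_mem_zip (word_zip hlen hx)).2

theorem rep_mem (h : GoodCol Δ adjb K col) {b x : ℕ × ℕ} (hx : x ∈ pointList K)
    (hb : b ∈ blocks Δ) : (rep col b x).2 ∈ pointList K := by
  have hb' : b.1 = 0 ∨ b.1 = 1 ∨ b.1 = 2 := by
    unfold blocks at hb
    simp only [List.mem_append, List.mem_flatMap, List.mem_cons, List.not_mem_nil,
      or_false] at hb
    rcases hb with ⟨c, _, hb⟩ | hb
    · left; rcases hb with rfl | rfl | rfl <;> rfl
    · rcases hb with rfl | rfl <;> simp
  obtain ⟨b1, b2⟩ := b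
  obtain ⟨t, u⟩ := x
  by_cases h0 : b1 = 0
  · subst h0
    by_cases ht : t = 0
    · subst ht
      rcases rep_color (col := col) b2 u with ⟨a, ha, e⟩ | ⟨_, e⟩ <;> rw [e]
      · rw [mem_pointList]
        left
        exact ⟨by norm_num, (h.mem _ ha).1⟩
      · exact hx
    · have : rep col (0, b2) (t, u) = (false, (t, u)) := by simp [rep, ht]
      rw [this]; exact hx
  · unfold rep
    simp only [h0, if_false]
    split_ifs with h1
    · rw [mem_pointList] at hx ⊢
      left
      simp only at hx hb' ⊢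
      refine ⟨by norm_num, ?_⟩
      rcases hx with hx | hx
      · exact hx.2
      · omega
    · exact hx

theorem coordFin_ne_iff (x y : ℕ × ℕ) (tbl : List ((ℕ × ℕ) × List Bool))
    (q : (ℕ × ℕ) × List Bool) :
    decide (coordFin col tbl x q ≠ coordFin col tbl y q) =
      xor (xor (rep col q.1 x).1 (ip (word tbl (rep col q.1 x).2) q.2))
        (xor (rep col q.1 y).1 (ip (word tbl (rep col q.1 y).2) q.2)) := by
  unfold coordFin
  cases xor (rep col q.1 x).1 (ip (word tbl (rep col q.1 x).2) q.2) <;>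
    cases xor (rep col q.1 y).1 (ip (word tbl (rep col q.1 y).2) q.2) <;>
    simp <;> norm_num

/-- number of differing coordinates -/
theorem count_diff (h : GoodCol Δ adjb K col) {k : ℕ}
    (hk : (pointList K).length ≤ 2 ^ k) {x y : ℕ × ℕ} (hx : x ∈ pointList K)
    (hy : y ∈ pointList K) (hxy : x ≠ y) :
    2 * (indexFin Δ (allVecs k)).countP (fun q => decide
      (coordFin col ((pointList K).zip (allVecs k)) x q ≠
        coordFin col ((pointList K).zip (allVecs k)) y q)) =
      2 ^ k * ((6 * Δ + 5) + wt adjb x y) := by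
  have hWn := nodup_allVecs k
  have hlen : (pointList K).length ≤ (allVecs k).length := by rw [length_allVecs]; exact hk
  have hV : ∀ z : ℕ × ℕ, z ∈ pointList K → z.1 = 0 → z.2 ∈ K := by
    intro z hz h0
    rw [mem_pointList] at hz
    rcases hz with hz | hz
    · exact hz.2
    · omega
  obtain ⟨hagree, hsign⟩ := agree_eq_wt h hxy (hV x hx) (hV y hy)
  rw [← hagree, ← length_blocks]
  unfold agreeCount
  have key : ∀ B : List (ℕ × ℕ), (∀ b ∈ B, b ∈ blocks Δ) →
      2 * (B.flatMap fun b => (allVecs k).map fun s => (b, s)).countP (fun q => decide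
        (coordFin col ((pointList K).zip (allVecs k)) x q ≠
          coordFin col ((pointList K).zip (allVecs k)) y q)) =
      2 ^ k * (B.length + B.countP fun b => decide ((rep col b x).2 = (rep col b y).2)) := by
    intro B
    induction B with
    | nil => intro _; simp
    | cons b B ih =>
      intro hB
      have ih' := ih fun b' hb' => hB b' (List.mem_cons_of_mem _ hb')
      rw [List.flatMap_cons, List.countP_append, Nat.mul_add, ih', List.length_cons,
        List.countP_cons, List.countP_map]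
      have hb := hB b List.mem_cons_self
      have hfun : ((fun q => decide (coordFin col ((pointList K).zip (allVecs k)) x q ≠
          coordFin col ((pointList K).zip (allVecs k)) y q)) ∘ fun s => (b, s)) =
          fun s => xor (xor (rep col b x).1
            (ip (word ((pointList K).zip (allVecs k)) (rep col b x).2) s))
          (xor (rep col b y).1
            (ip (word ((pointList K).zip (allVecs k)) (rep col b y).2) s)) := by
        funext s
        exact coordFin_ne_iff x y _ (b, s)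
      rw [hfun]
      have mx := rep_mem h hx hb
      have my := rep_mem h hy hb
      by_cases hag : (rep col b x).2 = (rep col b y).2
      · have hs := hsign b hb hag
        rw [hag, count_opposite k _ _ _ hs]
        simp
        ring
      · have hw : word ((pointList K).zip (allVecs k)) (rep col b x).2 ≠
            word ((pointList K).zip (allVecs k)) (rep col b y).2 := by
          intro heq
          exact hag (word_inj hWn hlen mx my heq)
        rw [count_signed k _ _ (length_of_mem_allVecs (word_mem hlen mx))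
          (length_of_mem_allVecs (word_mem hlen my)) hw]
        simp [hag]
        ring
  exact key (blocks Δ) fun b hb => hb

/-- The distances for finite `p`. -/
theorem dist_fin (p : ℝ≥0∞) [Fact (1 ≤ p)] (hp : p ≠ ∞) (h : GoodCol Δ adjb K col) {k : ℕ} (hk : (pointList K).length ≤ 2 ^ k) {x y : ℕ × ℕ}
    (hx : x ∈ pointList K) (hy : y ∈ pointList K) (hxy : x ≠ y) :
    lpDist p (indexFin Δ (allVecs k)).length
      ((indexFin Δ (allVecs k)).map (coordFin col ((pointList K).zip (allVecs k)) x))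
      ((indexFin Δ (allVecs k)).map (coordFin col ((pointList K).zip (allVecs k)) y)) =
      ((2 : ℝ) ^ p.toReal * (2 ^ k / 2)) ^ (1 / p.toReal) *
        ((6 * Δ + 5 : ℝ) + wt adjb x y) ^ (1 / p.toReal) := by
  have hpm : ∀ (z : ℕ × ℕ) (q : (ℕ × ℕ) × List Bool),
      coordFin col ((pointList K).zip (allVecs k)) z q = 1 ∨
      coordFin col ((pointList K).zip (allVecs k)) z q = -1 := by
    intro z q
    unfold coordFin
    split_ifs <;> simp
  rw [lpDist_fin p hp _ _ _ (fun c _ => hpm x c) (fun c _ => hpm y c)]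
  rw [← Real.mul_rpow (by positivity) (by positivity)]
  congr 1
  have hc := count_diff h hk hx hy hxy
  have hc' : (2 : ℝ) * ((indexFin Δ (allVecs k)).countP (fun q => decide
      (coordFin col ((pointList K).zip (allVecs k)) x q ≠
        coordFin col ((pointList K).zip (allVecs k)) y q)) : ℕ) =
      2 ^ k * ((6 * Δ + 5) + wt adjb x y) := by exact_mod_cast hc
  have : (((indexFin Δ (allVecs k)).countP (fun q => decide
      (coordFin col ((pointList K).zip (allVecs k)) x q ≠
        coordFin col ((pointList K).zip (allVecs k)) y q)) : ℕ) : ℝ) =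
      2 ^ k / 2 * ((6 * Δ + 5) + wt adjb x y) := by linarith
  rw [this]
  ring

end fin

/-! ### `p = ∞` -/

section inf
variable {adjb : ℕ → ℕ → Bool}

theorem wt_comm (hs : ∀ u v, adjb u v = adjb v u) (x y : ℕ × ℕ) : wt adjb x y = wt adjb y x := by
  unfold wt
  rw [hs x.2 y.2]
  have e1 : (x.1 = 0 ∧ y.1 = 0 ∧ adjb y.2 x.2 = true) ↔ (y.1 = 0 ∧ x.1 = 0 ∧ adjb y.2 x.2 = true) := by
    tauto
  have e2 : (x.2 = y.2 ∧ ((x.1 = 0 ∧ (y.1 = 1 ∨ y.1 = 2)) ∨ (y.1 = 0 ∧ (x.1 = 1 ∨ x.1 = 2)))) ↔
      (y.2 = x.2 ∧ ((y.1 = 0 ∧ (x.1 = 1 ∨ x.1 = 2)) ∨ (x.1 = 0 ∧ (y.1 = 1 ∨ y.1 = 2)))) := by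
    constructor
    · rintro ⟨h, h'⟩; exact ⟨h.symm, h'.symm⟩
    · rintro ⟨h, h'⟩; exact ⟨h.symm, h'.symm⟩
  rw [if_congr e1 (Eq.refl _) (if_congr e2 (Eq.refl _) (Eq.refl _))]

theorem lvl_mem (w : ℕ) : lvl w = 7 ∨ lvl w = 5 ∨ lvl w = 4 := by
  unfold lvl
  split_ifs <;> simp

theorem dist_inf [Fact ((1 : ℝ≥0∞) ≤ ∞)] (hs : ∀ u v, adjb u v = adjb v u) {P : List (ℕ × ℕ)}
    {x y : ℕ × ℕ} (hx : x ∈ P) (hxy : x ≠ y) :
    lpDist ∞ P.length (P.map (coordInf adjb x)) (P.map (coordInf adjb y)) =
      lvl (wt adjb x y) := by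
  refine lpDist_inf P _ _ _ ?_ x hx ?_
  · intro c _
    unfold coordInf
    by_cases h1 : x = c
    · subst h1
      rw [if_pos rfl, if_neg hxy.symm, wt_comm hs y x, zero_sub, abs_neg]
      rcases lvl_mem (wt adjb x y) with h | h | h <;> rw [h] <;> norm_num
    · by_cases h2 : y = c
      · subst h2
        rw [if_neg hxy, if_pos rfl, sub_zero]
        rcases lvl_mem (wt adjb x y) with h | h | h <;> rw [h] <;> norm_num
      · rw [if_neg h1, if_neg h2]
        rcases lvl_mem (wt adjb x y) with h | h | h <;>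
          rcases lvl_mem (wt adjb x c) with h' | h' | h' <;>
          rcases lvl_mem (wt adjb y c) with h'' | h'' | h'' <;> rw [h, h', h''] <;> norm_num
  · unfold coordInf
    rw [if_pos rfl, if_neg hxy.symm, wt_comm hs y x, zero_sub, abs_neg]
    rcases lvl_mem (wt adjb x y) with h | h | h <;> rw [h] <;> norm_num

end inf

end Pool.Agent.MP_311ff9_lc
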