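import Pool.Agent.Lib.MP_311ff9_lc.Embed

/-!
# From partitions to packings: the main inequality
-/

namespace Pool.Agent.MP_311ff9_lc

open scoped ENNReal

/-- the members of a triple -/
def three {α : Type} (t : α × α × α) : List α := [t.1, t.2.1, t.2.2]

/-- two triples have no common member -/
def disj (t t' : ℕ × ℕ × ℕ) : Bool :=
  (three t).all fun a => !((three t').any fun b => decide (a = b))

/-- add a triple if it is disjoint from all previous ones -/
def greedyStep (acc : List (ℕ × ℕ × ℕ)) (t : ℕ × ℕ × ℕ) : List (ℕ × ℕ × ℕ) :=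
  if (acc.all fun t' => disj t t') = true then t :: acc else acc

/-- greedy choice of disjoint triples -/
def greedy (L : List (ℕ × ℕ × ℕ)) : List (ℕ × ℕ × ℕ) := L.foldl greedyStep []

theorem disj_iff {t t' : ℕ × ℕ × ℕ} : disj t t' = true ↔ ∀ a ∈ three t, a ∉ three t' := by
  unfold disj
  rw [List.all_eq_true]
  constructor
  · intro h a ha ha'
    have := h a ha
    simp only [Bool.not_eq_true', List.any_eq_false, decide_eq_true_eq] at this
    exact this a ha' rfl
  · intro h a ha
    simp only [Bool.not_eq_true', List.any_eq_false, decide_eq_true_eq]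
    rintro b hb rfl
    exact h a ha hb

theorem flat3_eq {α : Type} (L : List (α × α × α)) : flat3 L = L.flatMap three := rfl

theorem mem_flat3 {α : Type} {L : List (α × α × α)} {a : α} :
    a ∈ flat3 L ↔ ∃ t ∈ L, a ∈ three t := by
  rw [flat3_eq, List.mem_flatMap]

theorem greedy_spec (L : List (ℕ × ℕ × ℕ)) (hL : ∀ t ∈ L, (three t).Nodup) :
    (∀ t ∈ greedy L, t ∈ L) ∧ (flat3 (greedy L)).Nodup ∧
      ∀ t ∈ L, ∃ a ∈ three t, a ∈ flat3 (greedy L) := by
  induction L using List.reverseRecOn with
  | nil => exact ⟨by simp [greedy], by simp [greedy, flat3], by simp⟩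
  | append_singleton L t ih =>
    obtain ⟨h1, h2, h3⟩ := ih fun s hs => hL s (by simp [hs])
    have e : greedy (L ++ [t]) = greedyStep (greedy L) t := by
      simp [greedy]
    rw [e]
    unfold greedyStep
    split_ifs with hall
    · rw [List.all_eq_true] at hall
      have hno : ∀ a ∈ three t, a ∉ flat3 (greedy L) := by
        intro a ha ha'
        rw [mem_flat3] at ha'
        obtain ⟨t', ht', ha'⟩ := ha'
        exact disj_iff.1 (hall t' ht') a ha ha'
      refine ⟨?_, ?_, ?_⟩
      · intro s hs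
        rcases List.mem_cons.1 hs with rfl | hs
        · simp
        · simp [h1 s hs]
      · have : flat3 (t :: greedy L) = three t ++ flat3 (greedy L) := rfl
        rw [this, List.nodup_append]
        refine ⟨hL t (by simp), h2, ?_⟩
        rintro a ha b hb rfl
        exact hno a ha hb
      · intro s hs
        rw [List.mem_append, List.mem_singleton] at hs
        rcases hs with hs | rfl
        · obtain ⟨a, ha, ha'⟩ := h3 s hs
          refine ⟨a, ha, ?_⟩
          rw [mem_flat3] at ha' ⊢
          obtain ⟨t', ht', h⟩ := ha'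
          exact ⟨t', List.mem_cons_of_mem _ ht', h⟩
        · refine ⟨s.1, by simp [three], ?_⟩
          rw [mem_flat3]
          exact ⟨s, List.mem_cons_self, by simp [three]⟩
    · refine ⟨fun s hs => by simp [h1 s hs], h2, ?_⟩
      intro s hs
      rw [List.mem_append, List.mem_singleton] at hs
      rcases hs with hs | rfl
      · exact h3 s hs
      · rw [List.all_eq_true] at hall
        push Not at hall
        obtain ⟨t', ht', h⟩ := hall
        have h' : ¬ ∀ a ∈ three s, a ∉ three t' := fun h'' => h (disj_iff.2 h'')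
        push Not at h'
        obtain ⟨a, ha, ha'⟩ := h'
        exact ⟨a, ha, mem_flat3.2 ⟨t', ht', ha'⟩⟩

/-- elements of the first part that are pairwise disjoint are all chosen -/
theorem greedy_superset (S T : List (ℕ × ℕ × ℕ))
    (hS : ∀ t ∈ S, ∀ t' ∈ S, (∃ a ∈ three t, a ∈ three t') → t = t') :
    ∀ t ∈ S, t ∈ greedy (S ++ T) := by
  have h1 : ∀ t ∈ S, t ∈ greedy S := by
    induction S using List.reverseRecOn with
    | nil => simp
    | append_singleton S t ih =>
      have ih' := ih fun a ha b hb => hS a (by simp [ha]) b (by simp [hb])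
      have e : greedy (S ++ [t]) = greedyStep (greedy S) t := by simp [greedy]
      rw [e]
      unfold greedyStep
      intro s hs
      rw [List.mem_append, List.mem_singleton] at hs
      split_ifs with hall
      · rcases hs with hs | rfl
        · exact List.mem_cons_of_mem _ (ih' s hs)
        · exact List.mem_cons_self
      · rcases hs with hs | rfl
        · exact ih' s hs
        · rw [List.all_eq_true] at hall
          push Not at hall
          obtain ⟨t', ht', h⟩ := hall
          have h' : ¬ ∀ a ∈ three s, a ∉ three t' := fun h'' => h (disj_iff.2 h'')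
          push Not at h'
          have hsub : ∀ S : List (ℕ × ℕ × ℕ), ∀ t ∈ greedy S, t ∈ S := by
            intro S
            induction S using List.reverseRecOn with
            | nil => simp [greedy]
            | append_singleton S t ih =>
              have e : greedy (S ++ [t]) = greedyStep (greedy S) t := by simp [greedy]
              rw [e]
              unfold greedyStep
              intro s hs
              split_ifs at hs
              · rcases List.mem_cons.1 hs with rfl | hs
                · simp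
                · simp [ih s hs]
              · simp [ih s hs]
          have : s = t' := hS s (by simp) t' (by simp [hsub S t' ht']) h'
          rw [this]; exact ht'
  have h2 : ∀ (T acc : List (ℕ × ℕ × ℕ)) (t : ℕ × ℕ × ℕ), t ∈ acc →
      t ∈ T.foldl greedyStep acc := by
    intro T
    induction T with
    | nil => intro acc t h; exact h
    | cons s T ih =>
      intro acc t h
      rw [List.foldl_cons]
      apply ih
      unfold greedyStep
      split_ifs
      · exact List.mem_cons_of_mem _ h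
      · exact h
  intro t ht
  unfold greedy
  rw [List.foldl_append]
  exact h2 T _ t (h1 t ht)

/-- In a list of triples without repeated members, triples with a common member are equal. -/
theorem eq_of_common {α : Type} {L : List (α × α × α)} (h : (flat3 L).Nodup) {t t' : α × α × α}
    (ht : t ∈ L) (ht' : t' ∈ L) {a : α} (ha : a ∈ three t) (ha' : a ∈ three t') : t = t' := by
  rw [flat3_eq, List.nodup_flatMap] at h
  by_contra hne
  have : Std.Symm (fun x y : α × α × α => (Function.onFun List.Disjoint three) x y) :=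
    ⟨fun a b hab => List.Disjoint.symm hab⟩
  exact h.2.forall ht ht' hne ha ha'

/-! ### The main inequality -/

/-- adjacency test by membership in the list of arcs -/
def adjb (A : List (List Bool)) (u v : ℕ) : Bool := decide ((u, v) ∈ arcs A)

/-- the triangles of the graph whose points form a triple of the partition -/
def selected (A : List (List Bool)) (vec : ℕ × ℕ → List ℚ)
    (π : List (List ℚ × List ℚ × List ℚ)) : List (ℕ × ℕ × ℕ) :=
  (tris A).filter fun t => decide ((vec (0, t.1), vec (0, t.2.1), vec (0, t.2.2)) ∈ π)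

/-- the packing obtained from a partition -/
def extract (A : List (List Bool)) (vec : ℕ × ℕ → List ℚ)
    (π : List (List ℚ × List ℚ × List ℚ)) : List (ℕ × ℕ × ℕ) :=
  greedy (selected A vec π ++ tris A)

section
variable {Δ : ℕ} (X : BoundedGraph Δ)

theorem adjb_iff {u v : ℕ} : adjb X.matrix u v = true ↔ X.Adj u v := by
  unfold adjb
  rw [decide_eq_true_eq, mem_arcs]

theorem three_nodup_of_mem_tris {t : ℕ × ℕ × ℕ} (h : t ∈ tris X.matrix) : (three t).Nodup := by
  rw [mem_tris] at h
  have h1 := Adj_ne X h.1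
  have h2 := Adj_ne X h.2.1
  have h3 := Adj_ne X h.2.2
  simp [three, h1, h2, h3]

theorem extract_isTrianglePacking (vec : ℕ × ℕ → List ℚ) (π : List (List ℚ × List ℚ × List ℚ)) :
    IsTrianglePacking X (extract X.matrix vec π) := by
  have hL : ∀ t ∈ selected X.matrix vec π ++ tris X.matrix, t ∈ tris X.matrix := by
    intro t ht
    rw [List.mem_append] at ht
    rcases ht with ht | ht
    · exact (List.mem_filter.1 ht).1
    · exact ht
  obtain ⟨h1, h2, _⟩ := greedy_spec (selected X.matrix vec π ++ tris X.matrix)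
    fun t ht => three_nodup_of_mem_tris X (hL t ht)
  exact ⟨fun t ht => (mem_tris X).1 (hL t (h1 t ht)), h2⟩

theorem card_kept_le (vec : ℕ × ℕ → List ℚ) (π : List (List ℚ × List ℚ × List ℚ)) :
    (kept X.matrix).length ≤ 3 * (Δ + 1) * (extract X.matrix vec π).length := by
  classical
  have hL : ∀ t ∈ selected X.matrix vec π ++ tris X.matrix, t ∈ tris X.matrix := by
    intro t ht
    rw [List.mem_append] at ht
    rcases ht with ht | ht
    · exact (List.mem_filter.1 ht).1
    · exact ht
  obtain ⟨_, _, h3⟩ := greedy_spec (selected X.matrix vec π ++ tris X.matrix)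
    fun t ht => three_nodup_of_mem_tris X (hL t ht)
  have hsub : (kept X.matrix).toFinset ⊆
      (flat3 (extract X.matrix vec π)).toFinset.biUnion fun u => insert u (nbr X u) := by
    intro v hv
    rw [List.mem_toFinset, mem_kept] at hv
    obtain ⟨a, b, h⟩ := hv
    obtain ⟨c, hc, hc'⟩ := h3 (v, a, b) (by simp [mem_tris, h])
    rw [Finset.mem_biUnion]
    refine ⟨c, by rw [List.mem_toFinset]; exact hc', ?_⟩
    rw [Finset.mem_insert, mem_nbr]
    simp only [three, List.mem_cons, List.not_mem_nil, or_false] at hc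
    rcases hc with rfl | rfl | rfl
    · exact Or.inl rfl
    · exact Or.inr (Adj_symm X h.1)
    · exact Or.inr (Adj_symm X h.2.2)
  have h4 := Finset.card_le_card hsub
  rw [List.toFinset_card_of_nodup (nodup_kept X)] at h4
  have h5 : ((flat3 (extract X.matrix vec π)).toFinset.biUnion
      fun u => insert u (nbr X u)).card ≤
      (flat3 (extract X.matrix vec π)).toFinset.card * (Δ + 1) :=
    Finset.card_biUnion_le_card_mul _ _ _ fun u _ =>
      (Finset.card_insert_le _ _).trans (Nat.add_le_add_right (card_nbr X u) 1)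
  have h6 := List.toFinset_card_le (flat3 (extract X.matrix vec π))
  rw [length_flat3] at h6
  calc (kept X.matrix).length ≤ _ := h4
    _ ≤ _ := h5
    _ ≤ (3 * (extract X.matrix vec π).length) * (Δ + 1) := Nat.mul_le_mul_right _ h6
    _ = _ := by ring

/-- Data of an embedding with three distance levels. -/
structure LevelEmb (p : ℝ≥0∞) [Fact (1 ≤ p)] (A : List (List Bool)) (s : ℕ)
    (vec : ℕ × ℕ → List ℚ) (κ : ℝ) (ℓ : ℕ → ℝ) : Prop where
  κ_pos : 0 < κ
  dist : ∀ x ∈ pointList (kept A), ∀ y ∈ pointList (kept A), x ≠ y →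
    lpDist p s (vec x) (vec y) = κ * ℓ (wt (adjb A) x y)

/-- Conditions on the three levels. -/
structure Levels (ℓ : ℕ → ℝ) : Prop where
  pos : 0 < ℓ 0
  le : ℓ 0 ≤ ℓ 1
  lt : 2 * (ℓ 1 - ℓ 0) < ℓ 3 - ℓ 0
  le' : ℓ 3 - ℓ 0 ≤ 3 * (ℓ 1 - ℓ 0)

/-- The constant of the reduction. -/
noncomputable def alpha (Δ : ℕ) (ℓ : ℕ → ℝ) : ℝ :=
  1 + (3 * ℓ 0 * (2 * (3 * (Δ + 1)) + 1) + 2 * (ℓ 1 - ℓ 0) * (3 * (Δ + 1))) /
    (3 * (ℓ 3 - ℓ 0) - 6 * (ℓ 1 - ℓ 0))

theorem one_le_alpha (Δ : ℕ) {ℓ : ℕ → ℝ} (h : Levels ℓ) : 1 ≤ alpha Δ ℓ := by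
  unfold alpha
  have h1 := h.pos
  have h2 := h.le
  have h3 := h.lt
  have h4 : 0 ≤ ℓ 1 - ℓ 0 := by linarith
  have h5 : 0 < 3 * (ℓ 3 - ℓ 0) - 6 * (ℓ 1 - ℓ 0) := by linarith
  have : 0 ≤ (3 * ℓ 0 * (2 * (3 * ((Δ : ℝ) + 1)) + 1) + 2 * (ℓ 1 - ℓ 0) * (3 * (Δ + 1))) /
      (3 * (ℓ 3 - ℓ 0) - 6 * (ℓ 1 - ℓ 0)) := by positivity
  linarith

theorem wt_values (adj : ℕ → ℕ → Bool) (x y : ℕ × ℕ) :
    wt adj x y = 0 ∨ wt adj x y = 1 ∨ wt adj x y = 3 := by
  unfold wt
  split_ifs <;> simp

/-- value of a list of triples of points -/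
noncomputable def valueOf (p : ℝ≥0∞) [Fact (1 ≤ p)] (s : ℕ)
    (π : List (List ℚ × List ℚ × List ℚ)) : ℝ := (π.map (perimeter p s)).sum

/-- apply a function to the members of a triple -/
def map3 {α β : Type} (f : α → β) (t : α × α × α) : β × β × β := (f t.1, f t.2.1, f t.2.2)

theorem flat3_map3 {α β : Type} (f : α → β) (L : List (α × α × α)) :
    flat3 (L.map (map3 f)) = (flat3 L).map f := by
  induction L with
  | nil => rfl
  | cons t L ih => rw [List.map_cons, flat3_cons, ih]; rfl

variable {X}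

theorem value_eq {p : ℝ≥0∞} [Fact (1 ≤ p)] {A : List (List Bool)} {s : ℕ}
    {vec : ℕ × ℕ → List ℚ} {κ : ℝ} {ℓ : ℕ → ℝ} (h : LevelEmb p A s vec κ ℓ)
    (L : List ((ℕ × ℕ) × (ℕ × ℕ) × (ℕ × ℕ))) (hL : (flat3 L).Nodup)
    (hmem : ∀ x ∈ flat3 L, x ∈ pointList (kept A)) :
    valueOf p s (L.map (map3 vec)) = κ * (3 * ℓ 0 * L.length +
      (L.map fun t => (fun w => ℓ w - ℓ 0) (wt (adjb A) t.1 t.2.1) +
        (fun w => ℓ w - ℓ 0) (wt (adjb A) t.2.1 t.2.2) +
        (fun w => ℓ w - ℓ 0) (wt (adjb A) t.1 t.2.2)).sum) := by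
  induction L with
  | nil => simp [valueOf]
  | cons t L ih =>
    rw [flat3_cons] at hL
    simp only [List.nodup_cons, List.mem_cons, not_or] at hL
    obtain ⟨⟨h12, h13, _⟩, ⟨h23, _⟩, _, hn⟩ := hL
    have m1 := hmem t.1 (by simp [flat3_cons])
    have m2 := hmem t.2.1 (by simp [flat3_cons])
    have m3 := hmem t.2.2 (by simp [flat3_cons])
    have ih' := ih hn fun x hx => hmem x (by simp [flat3_cons, hx])
    have hv : valueOf p s ((t :: L).map (map3 vec)) = perimeter p s (map3 vec t) +
        valueOf p s (L.map (map3 vec)) := by simp [valueOf]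
    rw [hv, ih']
    have hp : perimeter p s (map3 vec t) = κ * (ℓ (wt (adjb A) t.1 t.2.1) +
        ℓ (wt (adjb A) t.2.1 t.2.2) + ℓ (wt (adjb A) t.1 t.2.2)) := by
      unfold perimeter map3
      simp only
      rw [h.dist _ m1 _ m2 h12, h.dist _ m2 _ m3 h23, h.dist _ m1 _ m3 h13]
      ring
    rw [hp]
    simp only [List.map_cons, List.sum_cons, List.length_cons, Nat.cast_add, Nat.cast_one]
    ring

theorem vec_inj {p : ℝ≥0∞} [Fact (1 ≤ p)] {A : List (List Bool)} {s : ℕ}
    {vec : ℕ × ℕ → List ℚ} {κ : ℝ} {ℓ : ℕ → ℝ} (h : LevelEmb p A s vec κ ℓ) (hℓ : Levels ℓ)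
    {x y : ℕ × ℕ} (hx : x ∈ pointList (kept A)) (hy : y ∈ pointList (kept A))
    (he : vec x = vec y) : x = y := by
  by_contra hne
  have h1 := h.dist x hx y hy hne
  rw [he] at h1
  have h2 : lpDist p s (vec y) (vec y) = 0 := by simp [lpDist]
  rw [h2] at h1
  have hpos : 0 < ℓ (wt (adjb A) x y) := by
    have a1 := hℓ.pos
    have a2 := hℓ.le
    have a3 := hℓ.lt
    rcases wt_values (adjb A) x y with h | h | h <;> rw [h] <;> linarith
  have := mul_pos h.κ_pos hpos
  linarith

variable (X)

/-- The main inequality. -/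
theorem main_ineq {p : ℝ≥0∞} [Fact (1 ≤ p)] {s : ℕ}
    {vec : ℕ × ℕ → List ℚ} {κ : ℝ} {ℓ : ℕ → ℝ} (h : LevelEmb p X.matrix s vec κ ℓ)
    (hℓ : Levels ℓ) (π : List (List ℚ × List ℚ × List ℚ))
    (hπ : (flat3 π).Perm ((pointList (kept X.matrix)).map vec)) (r : ℝ) (hr1 : 1 ≤ r)
    (hr : ∀ π', (flat3 π').Perm ((pointList (kept X.matrix)).map vec) →
      valueOf p s π' ≤ r * valueOf p s π)
    (S : List (ℕ × ℕ × ℕ)) (hS : IsTrianglePacking X S) :
    (S.length : ℝ) ≤ (1 + alpha Δ ℓ * (r - 1)) * (extract X.matrix vec π).length := by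
  classical
  set A := X.matrix with hA
  set K := kept A with hK
  set P := pointList K with hP
  set e : ℕ → ℝ := fun w => ℓ w - ℓ 0 with he
  have hPn : P.Nodup := nodup_pointList (nodup_kept X)
  have e0 : e 0 = 0 := by simp [he]
  have e1 : 0 ≤ e 1 := by have := hℓ.le; simp [he]; linarith
  have e3 : 2 * e 1 < e 3 := hℓ.lt
  have e3' : e 3 ≤ 3 * e 1 := hℓ.le'
  -- the inverse of `vec`
  let inv : List ℚ → ℕ × ℕ := fun v => if h : ∃ x ∈ P, vec x = v then h.choose else (0, 0)
  have hinv : ∀ x ∈ P, inv (vec x) = x := by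
    intro x hx
    have hex : ∃ y ∈ P, vec y = vec x := ⟨x, hx, rfl⟩
    have : inv (vec x) = hex.choose := dif_pos hex
    rw [this]
    exact vec_inj h hℓ hex.choose_spec.1 hx hex.choose_spec.2
  have hinv' : ∀ v ∈ flat3 π, inv v ∈ P ∧ vec (inv v) = v := by
    intro v hv
    have := hπ.mem_iff.1 hv
    rw [List.mem_map] at this
    obtain ⟨x, hx, rfl⟩ := this
    rw [hinv x hx]
    exact ⟨hx, rfl⟩
  set π₀ := π.map (map3 inv) with hπ₀
  have hflat : (flat3 π₀).Perm P := by
    rw [hπ₀, flat3_map3]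
    refine (hπ.map inv).trans ?_
    rw [List.map_map]
    have : List.map (inv ∘ vec) P = P := by
      conv_rhs => rw [← List.map_id P]
      exact List.map_congr_left fun x hx => hinv x hx
    rw [this]
  have hback : π₀.map (map3 vec) = π := by
    rw [hπ₀, List.map_map]
    conv_rhs => rw [← List.map_id π]
    refine List.map_congr_left fun t ht => ?_
    have m1 := (hinv' t.1 (mem_flat3.2 ⟨t, ht, by simp [three]⟩)).2
    have m2 := (hinv' t.2.1 (mem_flat3.2 ⟨t, ht, by simp [three]⟩)).2
    have m3 := (hinv' t.2.2 (mem_flat3.2 ⟨t, ht, by simp [three]⟩)).2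
    simp only [Function.comp_apply, map3, m1, m2, m3, id]
  have hnd₀ : (flat3 π₀).Nodup := hflat.nodup_iff.2 hPn
  have hlen₀ : π₀.length = 2 * K.length + 1 := by
    have := hflat.length_eq
    rw [length_flat3, hP, length_pointList] at this
    omega
  -- the value of π
  have hval := value_eq h π₀ hnd₀ fun x hx => hflat.mem_iff.1 hx
  rw [hback] at hval
  have hub := partition_le (adj := adjb A) e0 e1 e3.le e3' π₀ hnd₀
  have hpot : ((flat3 π₀).map (pot e)).sum = 2 * e 1 * K.length := by
    rw [← sum_pot e K]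
    exact (hflat.map (pot e)).sum_eq
  rw [hpot] at hub
  -- the triangles of π are extracted
  set E := extract A vec π with hE
  have hcount : (π₀.filter (isTri (adjb A))).length ≤ E.length := by
    let τ : (ℕ × ℕ) × (ℕ × ℕ) × (ℕ × ℕ) → ℕ × ℕ × ℕ := map3 Prod.snd
    have htri : ∀ t ∈ π₀.filter (isTri (adjb A)), t = ((0, (τ t).1), (0, (τ t).2.1), (0, (τ t).2.2)) ∧
        τ t ∈ selected A vec π := by
      intro t ht
      rw [List.mem_filter] at ht
      obtain ⟨ht, hT⟩ := ht
      simp only [isTri, Bool.and_eq_true, decide_eq_true_eq] at hT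
      obtain ⟨⟨⟨⟨⟨a1, a2⟩, a3⟩, b1⟩, b2⟩, b3⟩ := hT
      have heq : t = ((0, (τ t).1), (0, (τ t).2.1), (0, (τ t).2.2)) := by
        refine Prod.ext (Prod.ext a1 rfl) (Prod.ext (Prod.ext a2 rfl) (Prod.ext a3 rfl))
      refine ⟨heq, ?_⟩
      unfold selected
      rw [List.mem_filter, mem_tris, decide_eq_true_eq]
      refine ⟨⟨(adjb_iff X).1 b1, (adjb_iff X).1 b2, (adjb_iff X).1 b3⟩, ?_⟩
      rw [← hback, List.mem_map]
      exact ⟨t, ht, by rw [heq]; rfl⟩
    have hsel : ∀ t ∈ selected A vec π, ∀ t' ∈ selected A vec π,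
        (∃ a ∈ three t, a ∈ three t') → t = t' := by
      intro t ht t' ht' ⟨a, ha, ha'⟩
      have key : ∀ t ∈ selected A vec π, ((0, t.1), (0, t.2.1), (0, t.2.2)) ∈ π₀ := by
        intro t ht
        unfold selected at ht
        rw [List.mem_filter, decide_eq_true_eq] at ht
        obtain ⟨htr, hmem⟩ := ht
        have hin : map3 inv (vec (0, t.1), vec (0, t.2.1), vec (0, t.2.2)) ∈ π₀ :=
          List.mem_map_of_mem hmem
        have hk : t.1 ∈ K ∧ t.2.1 ∈ K ∧ t.2.2 ∈ K := by
          rw [mem_tris] at htr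
          obtain ⟨h1, h2, h3⟩ := htr
          refine ⟨(mem_kept X).2 ⟨_, _, h1, h2, h3⟩, (mem_kept X).2 ⟨_, _, Adj_symm X h1, h3, h2⟩,
            (mem_kept X).2 ⟨_, _, Adj_symm X h3, h1, Adj_symm X h2⟩⟩
        have p0 : ∀ v ∈ K, (0, v) ∈ P := fun v hv => mem_pointList.2 (Or.inl ⟨by norm_num, hv⟩)
        simp only [map3] at hin
        rw [hinv _ (p0 _ hk.1), hinv _ (p0 _ hk.2.1), hinv _ (p0 _ hk.2.2)] at hin
        exact hin
      have hc := eq_of_common hnd₀ (key t ht) (key t' ht') (a := (0, a))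
        (by simp only [three, List.mem_cons, Prod.mk.injEq, true_and, List.not_mem_nil,
              or_false] at ha ⊢; exact ha)
        (by simp only [three, List.mem_cons, Prod.mk.injEq, true_and, List.not_mem_nil,
              or_false] at ha' ⊢; exact ha')
      simp only [Prod.mk.injEq, true_and] at hc
      exact Prod.ext hc.1 (Prod.ext hc.2.1 hc.2.2)
    have hsub : ((π₀.filter (isTri (adjb A))).map τ) ⊆ E := by
      intro x hx
      rw [List.mem_map] at hx
      obtain ⟨t, ht, rfl⟩ := hx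
      exact greedy_superset _ _ hsel _ (htri t ht).2
    have hnd : ((π₀.filter (isTri (adjb A))).map τ).Nodup := by
      refine List.Nodup.map_on ?_ ?_
      · intro t ht t' ht' heq
        rw [(htri t ht).1, (htri t' ht').1, heq]
      · refine List.Nodup.filter _ ?_
        rw [flat3_eq, List.nodup_flatMap] at hnd₀
        refine hnd₀.2.imp_of_mem ?_
        intro a b ha hb hab heq
        subst heq
        exact hab (show a.1 ∈ three a by simp [three]) (show a.1 ∈ three a by simp [three])
    have := (List.subperm_of_subset hnd hsub).length_le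
    rwa [List.length_map] at this
  -- the comparison partition
  set R := K.filter fun v => !(decide (v ∈ flat3 S)) with hR
  have hSK : ∀ v ∈ flat3 S, v ∈ K := by
    intro v hv
    rw [mem_flat3] at hv
    obtain ⟨t, ht, hv⟩ := hv
    obtain ⟨h1, h2, h3⟩ := hS.1 t ht
    simp only [three, List.mem_cons, List.not_mem_nil, or_false] at hv
    rcases hv with rfl | rfl | rfl
    · exact (mem_kept X).2 ⟨_, _, h1, h2, h3⟩
    · exact (mem_kept X).2 ⟨_, _, Adj_symm X h1, h3, h2⟩
    · exact (mem_kept X).2 ⟨_, _, Adj_symm X h3, h1, Adj_symm X h2⟩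
  have hKn : K.Nodup := nodup_kept X
  have hperm : (flat3 S ++ R).Perm K := by
    rw [List.perm_ext_iff_of_nodup ?_ hKn]
    · intro v
      rw [List.mem_append, hR, List.mem_filter]
      simp only [Bool.not_eq_true', decide_eq_false_iff_not]
      constructor
      · rintro (hv | hv)
        · exact hSK v hv
        · exact hv.1
      · intro hv
        by_cases hvS : v ∈ flat3 S
        · exact Or.inl hvS
        · exact Or.inr ⟨hv, hvS⟩
    · rw [List.nodup_append]
      refine ⟨hS.2, hKn.filter _, ?_⟩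
      rintro a ha b hb rfl
      rw [hR, List.mem_filter] at hb
      simp only [Bool.not_eq_true', decide_eq_false_iff_not] at hb
      exact hb.2 ha
  have hbuild := perm_build hperm
  have hbn : (flat3 (build S R)).Nodup := hbuild.nodup_iff.2 hPn
  have hvalb := value_eq h (build S R) hbn fun x hx => hbuild.mem_iff.1 hx
  have hlenb : (build S R).length = 2 * K.length + 1 := by
    have := hbuild.length_eq
    rw [length_flat3, length_pointList] at this
    omega
  have hvb := value_build (adj := adjb A) e0 R fun t ht => by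
    obtain ⟨h1, h2, h3⟩ := hS.1 t ht
    exact ⟨(adjb_iff X).2 h1, (adjb_iff X).2 h2, (adjb_iff X).2 h3⟩
  have hRlen : (R.length : ℝ) = K.length - 3 * S.length := by
    have := hperm.length_eq
    rw [List.length_append, length_flat3] at this
    have : (3 * (S.length : ℝ)) + R.length = K.length := by exact_mod_cast this
    linarith
  have hcmp := hr ((build S R).map (map3 vec)) (by
    rw [flat3_map3]
    exact hbuild.map vec)
  rw [hvalb, hval, hlenb, hlen₀, hvb, hRlen] at hcmp
  have hKE : (K.length : ℝ) ≤ 3 * (Δ + 1) * E.length := by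
    exact_mod_cast card_kept_le X vec π
  have hκ := h.κ_pos
  -- arithmetic
  have hcE : ((π₀.filter (isTri (adjb A))).length : ℝ) ≤ E.length := by exact_mod_cast hcount
  set k : ℝ := ((K.length : ℕ) : ℝ) with hk
  set E' : ℝ := ((E.length : ℕ) : ℝ) with hE'
  set S' : ℝ := ((S.length : ℕ) : ℝ) with hS'
  set F : ℝ := (((π₀.filter (isTri (adjb A))).length : ℕ) : ℝ) with hF
  set V : ℝ := (π₀.map fun t => e (wt (adjb A) t.1 t.2.1) + e (wt (adjb A) t.2.1 t.2.2) +
    e (wt (adjb A) t.1 t.2.2)).sum with hV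
  set L0 : ℝ := ℓ 0 with hL0
  have hL0pos : 0 < L0 := hℓ.pos
  have hE'0 : 0 ≤ E' := Nat.cast_nonneg _
  have hk0 : 0 ≤ k := Nat.cast_nonneg _
  have hd : 0 < 3 * e 3 - 6 * e 1 := by linarith
  have hV' : V ≤ 2 * e 1 * k + (3 * e 3 - 6 * e 1) * E' := by
    have : (3 * e 3 - 6 * e 1) * F ≤ (3 * e 3 - 6 * e 1) * E' :=
      mul_le_mul_of_nonneg_left hcE hd.le
    linarith
  have hcast : (((2 * K.length + 1 : ℕ) : ℝ)) = 2 * k + 1 := by
    rw [hk]; push_cast; ring
  rw [hcast] at hcmp
  have hcmp' : 3 * L0 * (2 * k + 1) + (3 * e 3 * S' + 2 * e 1 * (k - 3 * S')) ≤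
      r * (3 * L0 * (2 * k + 1) + V) := by
    have h1 : κ * (3 * L0 * (2 * k + 1) + (3 * e 3 * S' + 2 * e 1 * (k - 3 * S'))) ≤
        κ * (r * (3 * L0 * (2 * k + 1) + V)) := by
      calc _ ≤ r * (κ * (3 * L0 * (2 * k + 1) + V)) := hcmp
        _ = _ := by ring
    exact le_of_mul_le_mul_left h1 hκ
  have hr0 : 0 ≤ r - 1 := by linarith
  have h7 : (3 * e 3 - 6 * e 1) * S' ≤ (3 * e 3 - 6 * e 1) * E' +
      (r - 1) * (3 * L0 * (2 * k + 1) + 2 * e 1 * k + (3 * e 3 - 6 * e 1) * E') := by
    have : r * (3 * L0 * (2 * k + 1) + V) ≤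
        r * (3 * L0 * (2 * k + 1) + (2 * e 1 * k + (3 * e 3 - 6 * e 1) * E')) :=
      mul_le_mul_of_nonneg_left (by linarith) (by linarith)
    nlinarith
  unfold alpha
  change S' ≤ (1 + (1 + (3 * L0 * (2 * (3 * (Δ + 1)) + 1) + 2 * e 1 * (3 * (Δ + 1))) /
    (3 * e 3 - 6 * e 1)) * (r - 1)) * E'
  by_cases hE0 : E.length = 0
  · have hkz : k = 0 := by
      have : (0 : ℝ) ≤ 0 := le_refl _
      have hE'z : E' = 0 := by rw [hE', hE0]; simp
      rw [hE'z] at hKE
      linarith
    have hKz : K.length = 0 := by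
      rw [hk] at hkz
      exact_mod_cast hkz
    have hSz : S' = 0 := by
      have := hperm.length_eq
      rw [List.length_append, length_flat3, hKz] at this
      have : S.length = 0 := by omega
      rw [hS', this]; simp
    rw [hSz]
    have hE'z : E' = 0 := by rw [hE', hE0]; simp
    rw [hE'z]; simp
  · have hE1 : 1 ≤ E' := by
      rw [hE']
      exact_mod_cast Nat.one_le_iff_ne_zero.2 hE0
    set D : ℝ := 3 * e 3 - 6 * e 1 with hD
    have h8 : 3 * L0 * (2 * k + 1) + 2 * e 1 * k ≤
        (3 * L0 * (2 * (3 * (Δ + 1)) + 1) + 2 * e 1 * (3 * (Δ + 1))) * E' := by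
      have a1 : 3 * L0 * (2 * k + 1) ≤ 3 * L0 * ((2 * (3 * (Δ + 1)) + 1) * E') := by
        refine mul_le_mul_of_nonneg_left ?_ (by linarith)
        linarith
      have a2 : 2 * e 1 * k ≤ 2 * e 1 * (3 * (Δ + 1) * E') :=
        mul_le_mul_of_nonneg_left hKE (by linarith)
      linarith
    have h9 : D * S' ≤ D * E' + (r - 1) *
        ((3 * L0 * (2 * (3 * (Δ + 1)) + 1) + 2 * e 1 * (3 * (Δ + 1))) * E' + D * E') := by
      have : (r - 1) * (3 * L0 * (2 * k + 1) + 2 * e 1 * k + D * E') ≤ (r - 1) *
        ((3 * L0 * (2 * (3 * (Δ + 1)) + 1) + 2 * e 1 * (3 * (Δ + 1))) * E' + D * E') :=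
        mul_le_mul_of_nonneg_left (by linarith) hr0
      linarith
    have h10 : D * S' ≤ D * ((1 + (1 + (3 * L0 * (2 * (3 * (Δ + 1)) + 1) +
        2 * e 1 * (3 * (Δ + 1))) / D) * (r - 1)) * E') := by
      refine h9.trans (le_of_eq ?_)
      field_simp
      ring
    exact le_of_mul_le_mul_left h10 hd

end

end Pool.Agent.MP_311ff9_lc
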