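import Pool.Agent.Lib.MP_311ff9_lc.Construct
import Pool.Agent.Lib.PolyTime.More

/-!
# Polynomial-time computability of the reduction
-/

namespace Pool.Agent.MP_311ff9_lc

open Pool.Agent.PolyTime

theorem names_p : PTime names := PTime.rangeLength PTime.id

theorem arcs_p : PTime arcs := by
  unfold arcs
  apply_rules [PTime.id, PTime.const, names_p.comp, PTime.flatMap, PTime.map, PTime.filter,
    PTime.zip, PTime.fst', PTime.snd', PTime.pair]

theorem tris_p : PTime tris := by
  unfold tris
  apply_rules [PTime.id, PTime.const, names_p.comp, arcs_p.comp, PTime.flatMap, PTime.map,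
    PTime.filter, PTime.zip, PTime.fst', PTime.snd', PTime.and, PTime.mem, PTime.pair]

theorem kept_p : PTime kept := by
  unfold kept
  apply_rules [PTime.id, PTime.const, names_p.comp, tris_p.comp, PTime.filter, PTime.any,
    PTime.fst', PTime.snd', PTime.eq, PTime.pair]

theorem arcsK_p : PTime arcsK := by
  unfold arcsK
  apply_rules [PTime.id, PTime.const, arcs_p.comp, kept_p.comp, PTime.filter, PTime.and,
    PTime.fst', PTime.snd', PTime.mem, PTime.pair]

theorem touch_p : PTime (fun p : (ℕ × ℕ) × (ℕ × ℕ) => touch p.1 p.2) := by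
  unfold touch
  apply_rules [PTime.id, PTime.const, PTime.or, PTime.fst', PTime.snd', PTime.eq]

theorem freeColor_p (Δ : ℕ) :
    PTime (fun p : List ((ℕ × ℕ) × ℕ) × (ℕ × ℕ) => freeColor Δ p.1 p.2) := by
  unfold freeColor
  refine PTime.getD (PTime.find? (PTime.const _) ?_) (PTime.const _)
  refine PTime.all ?_ ?_
  · apply_rules [PTime.id, PTime.fst', PTime.snd']
  · refine PTime.not (PTime.and ?_ ?_)
    · refine touch_p.comp (PTime.pair ?_ ?_)
      · apply_rules [PTime.id, PTime.fst', PTime.snd']
      · apply_rules [PTime.id, PTime.fst', PTime.snd']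
    · apply_rules [PTime.id, PTime.fst', PTime.snd', PTime.eq]

theorem colStep_p (Δ : ℕ) :
    PTime (fun p : List ((ℕ × ℕ) × ℕ) × (ℕ × ℕ) => colStep Δ p.1 p.2) := by
  unfold colStep
  refine PTime.ite (PTime.any PTime.fst ?_) PTime.fst
    (PTime.cons (PTime.pair PTime.snd (freeColor_p Δ)) PTime.fst)
  apply_rules [PTime.id, PTime.fst', PTime.snd', PTime.eq, PTime.pair]

theorem freeColor_le (Δ : ℕ) (acc : List ((ℕ × ℕ) × ℕ)) (e : ℕ × ℕ) :
    freeColor Δ acc e ≤ 2 * Δ := by
  unfold freeColor
  cases h : (List.range (2 * Δ + 1)).find? (fun c =>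
    acc.all fun x => !(touch x.1 e && decide (x.2 = c))) with
  | none => simp
  | some c =>
    have := List.mem_of_find?_eq_some h
    rw [List.mem_range] at this
    simp only [Option.getD_some]
    omega

theorem coloring_size (Δ : ℕ) (l : List (ℕ × ℕ)) : ∀ acc : List ((ℕ × ℕ) × ℕ),
    size (enc (l.foldl (colStep Δ) acc)) ≤
      size (enc acc) + size (enc l) + l.length * (8 * Δ + 3) := by
  induction l with
  | nil => intro acc; simp
  | cons e l ih =>
    intro acc
    rw [List.foldl_cons, List.length_cons, Nat.add_one_mul]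
    refine (ih _).trans ?_
    have : size (enc (colStep Δ acc e)) ≤ size (enc acc) + size (enc e) + (8 * Δ + 3) := by
      unfold colStep
      split_ifs
      · omega
      · rw [size_lcons, size_pair e (freeColor Δ acc e)]
        have h1 := size_nat_le (freeColor Δ acc e)
        have h2 := freeColor_le Δ acc e
        omega
    rw [size_lcons]
    omega

theorem coloring_p (Δ : ℕ) : PTime (coloring Δ) := by
  unfold coloring
  refine PTime.foldl (h := fun _ acc e => colStep Δ acc e) PTime.id (PTime.const _) ?_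
    (B := fun n => 1 + n + n * (8 * Δ + 3))
    (((PBd.const 1).add PBd.id).add (PBd.id.mul (PBd.const _))) ?_
  · exact (colStep_p Δ).comp PTime.snd
  · intro a l₁ l₂ h
    change size (enc (l₁.foldl (colStep Δ) [])) ≤ _
    have h1 := coloring_size Δ l₁ []
    have h2 : size (enc l₁) ≤ size (enc a) := size_sublist (by rw [h]; simp)
    have h3 := length_le_size l₁
    have h4 : l₁.length * (8 * Δ + 3) ≤ size (enc a) * (8 * Δ + 3) :=
      Nat.mul_le_mul_right _ (by omega)
    simp only [enc_nil, size_nil] at h1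
    omega

theorem pointList_p : PTime pointList := by
  unfold pointList
  refine PTime.append (PTime.flatMap PTime.id ?_) (PTime.const _)
  apply_rules [PTime.id, PTime.const, PTime.cons, PTime.pair, PTime.fst', PTime.snd']

theorem double_p : PTime double := by
  unfold double
  apply_rules [PTime.id, PTime.append, PTime.map, PTime.cons, PTime.const, PTime.snd']

section
variable {β : Type} [Enc β]

theorem dropBy_p : PTime (fun p : List β × List (List Bool) => dropBy p.1 p.2) := by
  unfold dropBy
  refine PTime.foldl (h := fun _ (r : List β) _ => r.tail) PTime.snd PTime.fst ?_ (B := fun n => n)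
    PBd.id ?_
  · exact PTime.tail (PTime.fst' PTime.snd)
  · intro a l₁ l₂ _
    have h1 : l₁.foldl (fun (r : List β) (_ : List Bool) => r.tail) a.1 = a.1.drop l₁.length :=
      dropBy_eq l₁ a.1
    rw [h1]
    have h2 := size_sublist (List.drop_sublist l₁.length a.1)
    have h3 : size (enc a) = size (enc a.1) + size (enc a.2) + 1 := size_pair _ _
    omega

theorem growStep_p : PTime (fun p : List β × List (List Bool) => growStep p.1 p.2) := by
  unfold growStep
  exact PTime.ite dropBy_p.isEmpty PTime.snd (double_p.comp PTime.snd)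

theorem size_allVecs (k : ℕ) : size (enc (allVecs k)) ≤ 2 ^ k * (4 * k + 2) + 1 := by
  have h := size_list_le (allVecs k) (4 * k + 1) (by
    intro s hs
    have := length_of_mem_allVecs hs
    have h1 : ∀ l : List Bool, size (enc l) ≤ 4 * l.length + 1 := by
      intro l
      induction l with
      | nil => simp [enc_nil]
      | cons b l ih =>
        rw [size_lcons, List.length_cons]
        cases b <;> simp only [enc_true, enc_false, size_cons, size_nil] <;> omega
    have := h1 s
    omega)
  rw [length_allVecs] at h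
  exact h

theorem grow_p : PTime (grow : List β → List (List Bool)) := by
  unfold grow
  refine PTime.foldl (h := fun L acc _ => growStep L acc) PTime.id (PTime.const _) ?_
    (B := fun n => (2 * n + 1) * (4 * n + 2) + 1) ?_ ?_
  · exact growStep_p.comp (PTime.pair PTime.fst (PTime.fst' PTime.snd))
  · exact ((((PBd.const 2).mul PBd.id).add (PBd.const 1)).mul
      (((PBd.const 4).mul PBd.id).add (PBd.const 2))).add (PBd.const 1)
  · intro a l₁ l₂ h
    obtain ⟨k, h1, _, h3, h4⟩ := grow_aux a l₁ 0
    have h0 : (allVecs 0) = [[]] := rfl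
    rw [h0] at h1
    rw [h1]
    refine (size_allVecs k).trans ?_
    have h5 := length_le_size a
    have h6 : l₁.length ≤ a.length := by rw [h]; simp
    have h7 : 2 ^ k ≤ 2 * size (enc a) + 1 := by
      rcases h3 with h3 | h3
      · rw [h3]; simp
      · omega
    have h8 : 2 ^ k * (4 * k + 2) ≤ (2 * size (enc a) + 1) * (4 * size (enc a) + 2) :=
      Nat.mul_le_mul h7 (by omega)
    omega

end

theorem ip_p : PTime (fun p : List Bool × List Bool => ip p.1 p.2) := by
  unfold ip
  refine PTime.foldl (h := fun _ r q => Bool.xor r (q.1 && q.2)) (PTime.zip PTime.fst PTime.snd)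
    (PTime.const _) ?_ (B := fun _ => 3) (PBd.const 3) ?_
  · apply_rules [PTime.id, PTime.xor, PTime.and, PTime.fst', PTime.snd']
  · intro a l₁ l₂ _
    have : ∀ b : Bool, size (enc b) ≤ 3 := by
      intro b; cases b <;> simp [enc_true, enc_false]
    exact this _

theorem word_p : PTime (fun p : List ((ℕ × ℕ) × List Bool) × (ℕ × ℕ) => word p.1 p.2) := by
  unfold word
  refine PTime.getD (PTime.omap (g := fun _ (q : (ℕ × ℕ) × List Bool) => q.2)
    (PTime.find? PTime.fst ?_) ?_)
    (PTime.const _)
  · apply_rules [PTime.id, PTime.eq, PTime.fst', PTime.snd']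
  · apply_rules [PTime.id, PTime.fst', PTime.snd']

theorem rep_p :
    PTime (fun p : List ((ℕ × ℕ) × ℕ) × ((ℕ × ℕ) × (ℕ × ℕ)) => rep p.1 p.2.1 p.2.2) := by
  unfold rep
  refine PTime.iteP ?_ (PTime.iteP ?_ (PTime.getD (PTime.omap
    (g := fun _ (y : (ℕ × ℕ) × ℕ) => (true, ((0 : ℕ), y.1.1)))
    (PTime.find? ?_ ?_) ?_) ?_) ?_)
    (PTime.iteP ?_ ?_ ?_)
  all_goals
    apply_rules [PTime.id, PTime.const, PTime.and, PTime.eq, PTime.fst', PTime.snd', PTime.pair]

theorem coordFin_p : PTime (fun p : (List ((ℕ × ℕ) × ℕ) × List ((ℕ × ℕ) × List Bool)) ×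
    ((ℕ × ℕ) × ((ℕ × ℕ) × List Bool)) => coordFin p.1.1 p.1.2 p.2.1 p.2.2) := by
  unfold coordFin
  have hrep : PTime (fun p : (List ((ℕ × ℕ) × ℕ) × List ((ℕ × ℕ) × List Bool)) ×
      ((ℕ × ℕ) × ((ℕ × ℕ) × List Bool)) => rep p.1.1 p.2.2.1 p.2.1) := by
    refine rep_p.comp (PTime.pair ?_ (PTime.pair ?_ ?_))
    all_goals apply_rules [PTime.id, PTime.fst', PTime.snd']
  refine PTime.ite (PTime.xor hrep.fst' (ip_p.comp (PTime.pair (word_p.comp
    (PTime.pair ?_ hrep.snd')) ?_))) (PTime.const _) (PTime.const _)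
  all_goals apply_rules [PTime.id, PTime.fst', PTime.snd']

theorem indexFin_p (Δ : ℕ) : PTime (indexFin Δ) := by
  unfold indexFin
  refine PTime.flatMap (g := fun (W : List (List Bool)) b => W.map fun s => (b, s))
    (PTime.const _) ?_
  apply_rules [PTime.id, PTime.map, PTime.fst', PTime.snd', PTime.pair]

theorem vecFin_p (Δ : ℕ) :
    PTime (fun p : List (List Bool) × (ℕ × ℕ) => vecFin Δ p.1 p.2) := by
  unfold vecFin
  have hpl : PTime (fun A : List (List Bool) => pointList (kept A)) := pointList_p.comp kept_p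
  have hgr : PTime (fun A : List (List Bool) => grow (pointList (kept A))) := grow_p.comp hpl
  have hcol : PTime (fun A : List (List Bool) => coloring Δ (arcsK A)) :=
    (coloring_p Δ).comp arcsK_p
  refine PTime.map ((indexFin_p Δ).comp (hgr.comp PTime.fst)) ?_
  refine coordFin_p.comp (PTime.pair (PTime.pair ?_ ?_) (PTime.pair ?_ ?_))
  · exact hcol.comp (PTime.fst' PTime.fst)
  · exact PTime.zip (hpl.comp (PTime.fst' PTime.fst)) (hgr.comp (PTime.fst' PTime.fst))
  · exact PTime.snd' PTime.fst
  · exact PTime.snd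

theorem wt_p : PTime (fun p : List (List Bool) × ((ℕ × ℕ) × (ℕ × ℕ)) =>
    wt (adjb p.1) p.2.1 p.2.2) := by
  unfold wt adjb
  refine PTime.iteP (PTime.andP ?_ (PTime.andP ?_ (PTime.boolP (PTime.mem (PTime.pair ?_ ?_)
    (arcs_p.comp ?_))))) (PTime.const _) (PTime.iteP (PTime.andP ?_ (PTime.orP
    (PTime.andP ?_ (PTime.orP ?_ ?_)) (PTime.andP ?_ (PTime.orP ?_ ?_)))) (PTime.const _)
    (PTime.const _))
  all_goals apply_rules [PTime.id, PTime.const, PTime.eq, PTime.fst', PTime.snd']

theorem lvl_p : PTime lvl := by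
  unfold lvl
  refine PTime.iteP ?_ (PTime.const _) (PTime.iteP ?_ (PTime.const _) (PTime.const _))
  all_goals apply_rules [PTime.id, PTime.const, PTime.eq]

theorem vecInf_p : PTime (fun p : List (List Bool) × (ℕ × ℕ) => vecInf p.1 p.2) := by
  unfold vecInf coordInf
  have hpl : PTime (fun A : List (List Bool) => pointList (kept A)) := pointList_p.comp kept_p
  refine PTime.map (hpl.comp PTime.fst) (PTime.iteP ?_ (PTime.const _) (lvl_p.comp
    (wt_p.comp (PTime.pair ?_ (PTime.pair ?_ ?_)))))
  all_goals apply_rules [PTime.id, PTime.const, PTime.eq, PTime.fst', PTime.snd']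

theorem vec_p (inf : Bool) (Δ : ℕ) :
    PTime (fun p : List (List Bool) × (ℕ × ℕ) => vec inf Δ p.1 p.2) := by
  cases inf
  · exact (vecFin_p Δ).of_eq fun p => by simp [vec]
  · exact vecInf_p.of_eq fun p => by simp [vec]

theorem ptsOf_p (inf : Bool) (Δ : ℕ) : PTime (ptsOf inf Δ) := by
  unfold ptsOf
  exact PTime.map (pointList_p.comp kept_p) (vec_p inf Δ)

/-! ### the solution map -/

theorem disj_p : PTime (fun p : (ℕ × ℕ × ℕ) × (ℕ × ℕ × ℕ) => disj p.1 p.2) := by
  unfold disj three
  refine PTime.all ?_ (PTime.not (PTime.any ?_ ?_))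
  all_goals
    apply_rules [PTime.id, PTime.const, PTime.cons, PTime.eq, PTime.fst', PTime.snd']

theorem greedyStep_p :
    PTime (fun p : List (ℕ × ℕ × ℕ) × (ℕ × ℕ × ℕ) => greedyStep p.1 p.2) := by
  unfold greedyStep
  refine PTime.ite (PTime.all PTime.fst (disj_p.comp (PTime.pair ?_ ?_)))
    (PTime.cons PTime.snd PTime.fst) PTime.fst
  all_goals apply_rules [PTime.id, PTime.fst', PTime.snd']

theorem greedy_size (l : List (ℕ × ℕ × ℕ)) : ∀ acc : List (ℕ × ℕ × ℕ),
    size (enc (l.foldl greedyStep acc)) ≤ size (enc acc) + size (enc l) := by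
  induction l with
  | nil => intro acc; simp
  | cons e l ih =>
    intro acc
    rw [List.foldl_cons]
    refine (ih _).trans ?_
    have : size (enc (greedyStep acc e)) ≤ size (enc acc) + size (enc e) + 1 := by
      unfold greedyStep
      split_ifs
      · rw [size_lcons]; omega
      · omega
    rw [size_lcons]
    omega

theorem greedy_p : PTime greedy := by
  unfold greedy
  refine PTime.foldl (h := fun _ acc e => greedyStep acc e) PTime.id (PTime.const _) ?_
    (B := fun n => 1 + n) ((PBd.const 1).add PBd.id) ?_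
  · exact greedyStep_p.comp PTime.snd
  · intro a l₁ l₂ h
    change size (enc (l₁.foldl greedyStep [])) ≤ _
    have h1 := greedy_size l₁ []
    have h2 : size (enc l₁) ≤ size (enc a) := size_sublist (by rw [h]; simp)
    simp only [enc_nil, size_nil] at h1
    omega

theorem extract_p (inf : Bool) (Δ : ℕ) :
    PTime (fun p : List (List Bool) × List (List ℚ × List ℚ × List ℚ) =>
      extract p.1 (vec inf Δ p.1) p.2) := by
  unfold extract selected
  have ht : PTime (fun p : List (List Bool) × List (List ℚ × List ℚ × List ℚ) => tris p.1) :=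
    tris_p.comp PTime.fst
  have hv : PTime₂ (fun (A : List (List Bool)) (v : ℕ) => vec inf Δ A (0, v)) :=
    PTime.comp₂ (f := vec inf Δ) (vec_p inf Δ) PTime.fst (PTime.pair (PTime.const 0) PTime.snd)
  have hmem : PTime₂ (fun (p : List (List Bool) × List (List ℚ × List ℚ × List ℚ))
      (t : ℕ × ℕ × ℕ) => decide ((vec inf Δ p.1 (0, t.1), vec inf Δ p.1 (0, t.2.1),
        vec inf Δ p.1 (0, t.2.2)) ∈ p.2)) := by
    refine PTime.mem (PTime.pair ?_ (PTime.pair ?_ ?_)) ?_
    · exact PTime.comp₂ (f := fun A v => vec inf Δ A (0, v)) hv (PTime.fst' PTime.fst)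
        (PTime.fst' PTime.snd)
    · exact PTime.comp₂ (f := fun A v => vec inf Δ A (0, v)) hv (PTime.fst' PTime.fst)
        (PTime.fst' (PTime.snd' PTime.snd))
    · exact PTime.comp₂ (f := fun A v => vec inf Δ A (0, v)) hv (PTime.fst' PTime.fst)
        (PTime.snd' (PTime.snd' PTime.snd))
    · exact PTime.snd' PTime.fst
  exact greedy_p.comp (PTime.append (PTime.filter ht hmem) ht)

end Pool.Agent.MP_311ff9_lc
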