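import Pool.Agent.Lib.PCP.Kmsv
import Pool.Agent.Lib.PCP.Kmsv2
import Pool.Agent.Lib.MP_311ff9_lc.PolyProof

/-!
# Composition of a reduction to triangle packing with the reduction to Max-3DM
-/

namespace Pool.Agent.MP_311ff9_lc

open Pool.Agent.PolyTime Pool.Agent.PCP
open scoped ENNReal

local instance instEncBG (Δ : ℕ) : Enc (BoundedGraph Δ) := ⟨fun X => enc X.matrix⟩
local instance instEncPS : Enc PointSet := ⟨fun P => enc P.pts⟩

theorem comp_f (p : ℝ≥0∞) [Fact (1 ≤ p)] {Δ : ℕ} {A : OptProblem}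
    (fX : RatioParam × A.Inst → BoundedGraph Δ) (hfX : PTime fX) :
    IsPolyTime (fun z : RatioParam × A.Inst => D.cons (ratCode z.1) (A.encInst z.2))
      (fun P : PointSet => enc P.pts) (fun z => reduceF p (fX z)) := by
  have h : PTime (fun X : BoundedGraph Δ => reduceF p X) :=
    (ptsOf_p (decide (p = ∞)) Δ).of_enc_eq (fun X : BoundedGraph Δ => X.matrix)
      (fun _ => rfl) (fun _ => rfl)
  exact (h.comp hfX).isPolyTime

/-- the extracted packing -/
noncomputable def extX (p : ℝ≥0∞) [Fact (1 ≤ p)] {Δ : ℕ} {A : OptProblem}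
    (fX : RatioParam × A.Inst → BoundedGraph Δ)
    (z : RatioParam × (A.Inst × List (List ℚ × List ℚ × List ℚ))) : List (ℕ × ℕ × ℕ) :=
  extract (fX (z.1, z.2.1)).matrix (vec (decide (p = ∞)) Δ (fX (z.1, z.2.1)).matrix) z.2.2

theorem ext_p (p : ℝ≥0∞) [Fact (1 ≤ p)] {Δ : ℕ} {A : OptProblem}
    (fX : RatioParam × A.Inst → BoundedGraph Δ) (hfX : PTime fX) :
    PTime (extX (A := A) p fX) := by
  have h : PTime (fun q : BoundedGraph Δ × List (List ℚ × List ℚ × List ℚ) =>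
      extract q.1.matrix (vec (decide (p = ∞)) Δ q.1.matrix) q.2) :=
    (extract_p (decide (p = ∞)) Δ).of_enc_eq
      (fun q : BoundedGraph Δ × List (List ℚ × List ℚ × List ℚ) => (q.1.matrix, q.2))
      (fun _ => rfl) (fun _ => rfl)
  have hz : PTime (fun z : RatioParam × (A.Inst × List (List ℚ × List ℚ × List ℚ)) =>
      (z.1, z.2.1)) := PTime.fst.pair (PTime.fst' PTime.snd)
  have h2 : PTime (fun z : RatioParam × (A.Inst × List (List ℚ × List ℚ × List ℚ)) =>
      (fX (z.1, z.2.1), z.2.2)) := (hfX.comp hz).pair (PTime.snd' PTime.snd)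
  have h3 := h.comp h2
  exact h3

theorem comp_g (p : ℝ≥0∞) [Fact (1 ≤ p)] {Δ : ℕ} {A : OptProblem}
    (fX : RatioParam × A.Inst → BoundedGraph Δ) (hfX : PTime fX)
    (gX : RatioParam × (A.Inst × List (ℕ × ℕ × ℕ)) → A.Sol) (hgX : PTime gX) :
    IsPolyTime (fun z : RatioParam × (A.Inst × List (List ℚ × List ℚ × List ℚ)) =>
      D.cons (ratCode z.1) (D.cons (A.encInst z.2.1) (enc z.2.2))) A.encSol
      (fun z => gX (z.1, z.2.1, extX p fX z)) := by
  have h1 : PTime (fun z : RatioParam × (A.Inst × List (List ℚ × List ℚ × List ℚ)) =>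
      (z.1, z.2.1, extX p fX z)) :=
    PTime.fst.pair ((PTime.fst' PTime.snd).pair (ext_p p fX hfX))
  have h2 := hgX.comp h1
  exact h2.isPolyTime

theorem compose (p : ℝ≥0∞) [Fact (1 ≤ p)] {Δ : ℕ} {A : OptProblem} {ℓ : ℕ → ℝ}
    (hℓ : Levels ℓ) (hemb : ∀ X : BoundedGraph Δ, ∃ κ : ℝ,
      LevelEmb p X.matrix (dim (decide (p = ∞)) Δ X.matrix) (vec (decide (p = ∞)) Δ X.matrix)
        κ ℓ)
    (α2 : ℕ) (hα2 : alpha Δ ℓ ≤ α2) (α : ℕ) (hα : 0 < α)
    (fX : RatioParam × A.Inst → BoundedGraph Δ) (hfX : PTime fX)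
    (gX : RatioParam × (A.Inst × List (ℕ × ℕ × ℕ)) → A.Sol) (hgX : PTime gX)
    (hfeas : ∀ z, A.feasible z.2.1 (gX z))
    (hratio : ∀ (r : RatioParam) (x : A.Inst) (S : List (ℕ × ℕ × ℕ)),
      IsTrianglePacking (fX (r, x)) S →
      (∀ S', IsTrianglePacking (fX (r, x)) S' →
        (S'.length : ℝ) ≤ (1 + α2 * (((r.1 : ℚ) : ℝ) - 1)) * S.length) →
      A.RatioAtMost x (gX (r, x, S)) (1 + α * (((r.1 : ℚ) : ℝ) - 1))) :
    Nonempty (APReduces A (opt3DM p)) := by
  refine ⟨{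
    f := fun z => reduceF p (fX z)
    g := fun z => gX (z.1, z.2.1, extX p fX z)
    α := α
    one_le_α := by exact_mod_cast hα
    f_polyTime := comp_f p fX hfX
    g_polyTime := comp_g p fX hfX gX hgX
    exists_feasible := ?_
    g_feasible := ?_
    ratio := ?_ }⟩
  · intro r x _
    refine ⟨(build [] (kept (fX (r, x)).matrix)).map
      (map3 (vec (decide (p = ∞)) Δ (fX (r, x)).matrix)), ?_⟩
    change (flat3 ((build [] (kept (fX (r, x)).matrix)).map (map3 (vec (decide (p = ∞)) Δ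
      (fX (r, x)).matrix)))).Perm ((pointList (kept (fX (r, x)).matrix)).map
        (vec (decide (p = ∞)) Δ (fX (r, x)).matrix))
    rw [flat3_map3]
    exact (perm_build (S := []) (R := kept (fX (r, x)).matrix) (List.Perm.refl _)).map _
  · intro r x y _
    exact hfeas (r, x, extX p fX (r, x, y))
  · intro r x π hπ hr
    obtain ⟨κ, hκ⟩ := hemb (fX (r, x))
    have hr1 : (1 : ℝ) ≤ ((r.1 : ℚ) : ℝ) := by exact_mod_cast r.2.le
    refine hratio r x (extX p fX (r, x, π)) (extract_isTrianglePacking _ _ π) fun S' hS' => ?_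
    have h1 := main_ineq (fX (r, x)) hκ hℓ π hπ ((r.1 : ℚ) : ℝ) hr1
      (fun π' hπ' => hr π' hπ') S' hS'
    refine h1.trans (mul_le_mul_of_nonneg_right ?_ (Nat.cast_nonneg _))
    have h2 : 0 ≤ ((r.1 : ℚ) : ℝ) - 1 := by linarith
    have := mul_le_mul_of_nonneg_right hα2 h2
    linarith

end Pool.Agent.MP_311ff9_lc
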