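import Pool.Agent.Lib.MP_311ff9_lc.Problem
import Pool.Agent.Lib.MP_311ff9_lc.Core

/-!
# Lists computed from an adjacency matrix: arcs, triangles, kept vertices, edge colouring
-/

namespace Pool.Agent.MP_311ff9_lc

/-- vertex names -/
def names (A : List (List Bool)) : List ℕ := List.range A.length

/-- all ordered pairs of adjacent vertices -/
def arcs (A : List (List Bool)) : List (ℕ × ℕ) :=
  ((names A).zip A).flatMap fun p =>
    (((names A).zip p.2).filter fun q => q.2).map fun q => (p.1, q.1)

/-- all ordered triples of pairwise adjacent vertices -/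
def tris (A : List (List Bool)) : List (ℕ × ℕ × ℕ) :=
  (arcs A).flatMap fun e =>
    ((names A).filter fun w => decide ((e.2, w) ∈ arcs A) && decide ((e.1, w) ∈ arcs A)).map
      fun w => (e.1, e.2, w)

/-- the vertices that lie in a triangle -/
def kept (A : List (List Bool)) : List ℕ :=
  (names A).filter fun u => (tris A).any fun t => decide (t.1 = u)

/-- arcs between kept vertices -/
def arcsK (A : List (List Bool)) : List (ℕ × ℕ) :=
  (arcs A).filter fun e => decide (e.1 ∈ kept A) && decide (e.2 ∈ kept A)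

/-- two arcs have a common vertex -/
def touch (e e' : ℕ × ℕ) : Bool :=
  decide (e.1 = e'.1) || decide (e.1 = e'.2) || decide (e.2 = e'.1) || decide (e.2 = e'.2)

/-- the smallest colour not used at the ends of `e` -/
def freeColor (Δ : ℕ) (acc : List ((ℕ × ℕ) × ℕ)) (e : ℕ × ℕ) : ℕ :=
  ((List.range (2 * Δ + 1)).find? fun c =>
    acc.all fun x => !(touch x.1 e && decide (x.2 = c))).getD 0

/-- one step of the greedy colouring: each edge is coloured in one orientation only -/
def colStep (Δ : ℕ) (acc : List ((ℕ × ℕ) × ℕ)) (e : ℕ × ℕ) : List ((ℕ × ℕ) × ℕ) :=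
  if (acc.any fun x => decide (x.1 = (e.2, e.1))) = true then acc
  else (e, freeColor Δ acc e) :: acc

/-- greedy edge colouring -/
def coloring (Δ : ℕ) (L : List (ℕ × ℕ)) : List ((ℕ × ℕ) × ℕ) := L.foldl (colStep Δ) []

/-! ### Matrices of graphs -/

section matrix
variable {Δ : ℕ} (X : BoundedGraph Δ)

theorem names_matrix : names X.matrix = List.range X.n := by
  simp [names, BoundedGraph.matrix]

theorem mem_zip_range {α : Type} (n : ℕ) (f : Fin n → α) (u : ℕ) (a : α) :
    (u, a) ∈ (List.range n).zip (List.ofFn f) ↔ ∃ h : u < n, f ⟨u, h⟩ = a := by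
  constructor
  · intro h
    obtain ⟨i, hi, h⟩ := List.mem_iff_getElem.1 h
    simp only [List.length_zip, List.length_range, List.length_ofFn, min_self] at hi
    simp only [List.getElem_zip, List.getElem_range, List.getElem_ofFn, Prod.mk.injEq] at h
    obtain ⟨rfl, rfl⟩ := h
    exact ⟨hi, rfl⟩
  · rintro ⟨h, rfl⟩
    rw [List.mem_iff_getElem]
    refine ⟨u, by simp [h], by simp⟩

theorem mem_arcs {u v : ℕ} : (u, v) ∈ arcs X.matrix ↔ X.Adj u v := by
  unfold arcs
  rw [names_matrix]
  simp only [List.mem_flatMap, List.mem_map, List.mem_filter, Prod.exists, Prod.mk.injEq]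
  constructor
  · rintro ⟨u', row, h1, v', b, ⟨h2, hb⟩, rfl, rfl⟩
    unfold BoundedGraph.matrix at h1
    rw [mem_zip_range] at h1
    obtain ⟨hu, rfl⟩ := h1
    rw [mem_zip_range] at h2
    obtain ⟨hv, h2⟩ := h2
    refine ⟨hu, hv, ?_⟩
    simpa [hb] using h2
  · rintro ⟨hu, hv, h⟩
    refine ⟨u, List.ofFn fun v => decide (X.G.Adj ⟨u, hu⟩ v), ?_, v, true, ⟨?_, rfl⟩, rfl, rfl⟩
    · unfold BoundedGraph.matrix
      rw [mem_zip_range]
      exact ⟨hu, rfl⟩
    · rw [mem_zip_range]
      exact ⟨hv, by simpa using h⟩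

theorem Adj_symm {u v : ℕ} (h : X.Adj u v) : X.Adj v u := by
  obtain ⟨hu, hv, h⟩ := h
  exact ⟨hv, hu, h.symm⟩

theorem Adj_ne {u v : ℕ} (h : X.Adj u v) : u ≠ v := by
  obtain ⟨hu, hv, h⟩ := h
  rintro rfl
  exact h.ne rfl

theorem mem_tris {t : ℕ × ℕ × ℕ} : t ∈ tris X.matrix ↔
    X.Adj t.1 t.2.1 ∧ X.Adj t.2.1 t.2.2 ∧ X.Adj t.1 t.2.2 := by
  obtain ⟨u, v, w⟩ := t
  unfold tris
  simp only [List.mem_flatMap, List.mem_map, List.mem_filter, Bool.and_eq_true,
    decide_eq_true_eq, Prod.exists, Prod.mk.injEq]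
  constructor
  · rintro ⟨u', v', h1, w', ⟨_, h2, h3⟩, rfl, rfl, rfl⟩
    rw [mem_arcs] at h1 h2 h3
    exact ⟨h1, h2, h3⟩
  · rintro ⟨h1, h2, h3⟩
    refine ⟨u, v, (mem_arcs X).2 h1, w, ⟨?_, (mem_arcs X).2 h2, (mem_arcs X).2 h3⟩, rfl, rfl, rfl⟩
    rw [names_matrix, List.mem_range]
    exact h2.2.1

theorem mem_kept {u : ℕ} : u ∈ kept X.matrix ↔ ∃ v w, X.Adj u v ∧ X.Adj v w ∧ X.Adj u w := by
  unfold kept
  rw [List.mem_filter, names_matrix, List.mem_range, List.any_eq_true]
  simp only [decide_eq_true_eq]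
  constructor
  · rintro ⟨_, t, ht, rfl⟩
    rw [mem_tris] at ht
    exact ⟨t.2.1, t.2.2, ht⟩
  · rintro ⟨v, w, h⟩
    exact ⟨h.1.1, (u, v, w), (mem_tris X).2 h, rfl⟩

theorem nodup_kept : (kept X.matrix).Nodup := by
  unfold kept
  rw [names_matrix]
  exact List.nodup_range.filter _

theorem nodup_arcs : (arcs X.matrix).Nodup := by
  unfold arcs
  rw [names_matrix, List.nodup_flatMap]
  constructor
  · rintro ⟨u, row⟩ h
    unfold BoundedGraph.matrix at h
    rw [mem_zip_range] at h
    obtain ⟨hu, rfl⟩ := h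
    refine List.Nodup.map_on ?_ (List.Nodup.filter _ ?_)
    · rintro ⟨a, b⟩ ha ⟨a', b'⟩ ha' h
      simp only [List.mem_filter] at ha ha'
      simp only [Prod.mk.injEq, true_and] at h
      subst h
      rw [ha.2, ha'.2]
    · refine List.Nodup.of_map Prod.fst ?_
      rw [List.map_fst_zip (by simp)]
      exact List.nodup_range
  · have : ((List.range X.n).zip X.matrix).Pairwise fun a b => a.1 ≠ b.1 := by
      have h : ((((List.range X.n).zip X.matrix)).map Prod.fst).Nodup := by
        rw [List.map_fst_zip (by simp [BoundedGraph.matrix])]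
        exact List.nodup_range
      exact List.pairwise_map.1 h
    refine this.imp ?_
    intro a b hab
    simp only [Function.onFun]
    intro x hx hx'
    simp only [List.mem_map] at hx hx'
    obtain ⟨q, _, rfl⟩ := hx
    obtain ⟨q', _, h⟩ := hx'
    exact hab (by simpa using (congrArg Prod.fst h).symm)

theorem mem_arcsK {u v : ℕ} : (u, v) ∈ arcsK X.matrix ↔
    X.Adj u v ∧ u ∈ kept X.matrix ∧ v ∈ kept X.matrix := by
  unfold arcsK
  rw [List.mem_filter, mem_arcs]
  simp

/-- the neighbours of a vertex -/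
noncomputable def nbr (u : ℕ) : Finset ℕ := by
  classical
  exact (Finset.range X.n).filter fun v => X.Adj u v

theorem mem_nbr {u v : ℕ} : v ∈ nbr X u ↔ X.Adj u v := by
  classical
  unfold nbr
  rw [Finset.mem_filter, Finset.mem_range]
  exact ⟨fun h => h.2, fun h => ⟨h.2.1, h⟩⟩

theorem card_nbr (u : ℕ) : (nbr X u).card ≤ Δ := by
  classical
  by_cases hu : u < X.n
  · have h := X.degree_le ⟨u, hu⟩
    rw [← SimpleGraph.card_neighborFinset_eq_degree] at h
    refine le_trans ?_ h
    have : nbr X u ⊆ (X.G.neighborFinset ⟨u, hu⟩).map Fin.valEmbedding := by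
      intro v hv
      rw [mem_nbr] at hv
      obtain ⟨_, hv', h⟩ := hv
      rw [Finset.mem_map]
      exact ⟨⟨v, hv'⟩, by rw [SimpleGraph.mem_neighborFinset]; exact h, rfl⟩
    calc (nbr X u).card ≤ ((X.G.neighborFinset ⟨u, hu⟩).map Fin.valEmbedding).card :=
          Finset.card_le_card this
      _ = _ := Finset.card_map _
  · have : nbr X u = ∅ := by
      rw [Finset.eq_empty_iff_forall_notMem]
      intro v hv
      rw [mem_nbr] at hv
      exact hu hv.1
    rw [this]; simp

end matrix

/-! ### The greedy colouring -/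

/-- the other end -/
def other (u : ℕ) (e : ℕ × ℕ) : ℕ := if e.1 = u then e.2 else e.1

/-- `u` is an end of `e` -/
def isEnd (u : ℕ) (e : ℕ × ℕ) : Bool := decide (e.1 = u) || decide (e.2 = u)

/-- Invariant of the colouring, relative to the graph given by `adj`. -/
structure ColInv (Δ : ℕ) (adj : ℕ → ℕ → Prop) (acc : List ((ℕ × ℕ) × ℕ)) : Prop where
  adj_of_mem : ∀ x ∈ acc, adj x.1.1 x.1.2
  distinct : acc.Pairwise fun x y => x.1 ≠ y.1 ∧ x.1 ≠ (y.1.2, y.1.1)
  proper : acc.Pairwise fun x y => touch x.1 y.1 = true → x.2 ≠ y.2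
  lt : ∀ x ∈ acc, x.2 < 2 * Δ + 1

theorem touch_comm (e e' : ℕ × ℕ) : touch e e' = touch e' e := by
  unfold touch
  rw [Bool.eq_iff_iff]
  simp only [Bool.or_eq_true, decide_eq_true_eq]
  constructor
  · rintro (((h | h) | h) | h) <;> simp [h]
  · rintro (((h | h) | h) | h) <;> simp [h]

theorem length_isEnd_le {Δ : ℕ} {adj : ℕ → ℕ → Prop} {acc : List ((ℕ × ℕ) × ℕ)}
    (N : ℕ → Finset ℕ) (hN : ∀ u v, adj u v → v ∈ N u) (hcard : ∀ u, (N u).card ≤ Δ)
    (hsymm : ∀ u v, adj u v → adj v u) (hne : ∀ u v, adj u v → u ≠ v)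
    (h1 : ∀ x ∈ acc, adj x.1.1 x.1.2)
    (h2 : acc.Pairwise fun x y => x.1 ≠ y.1 ∧ x.1 ≠ (y.1.2, y.1.1)) (u : ℕ) :
    (acc.filter fun x => isEnd u x.1).length ≤ Δ := by
  have hnd : ((acc.filter fun x => isEnd u x.1).map fun x => other u x.1).Nodup := by
    unfold List.Nodup
    rw [List.pairwise_map]
    have h2' := h2.filter (fun x => isEnd u x.1)
    refine List.Pairwise.imp_of_mem ?_ h2'
    intro x y hx hy hxy heq
    rw [List.mem_filter] at hx hy
    have ax := h1 x hx.1
    have ay := h1 y hy.1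
    have nx := hne _ _ ax
    have ny := hne _ _ ay
    obtain ⟨⟨x1, x2⟩, cx⟩ := x
    obtain ⟨⟨y1, y2⟩, cy⟩ := y
    simp only [isEnd, Bool.or_eq_true, decide_eq_true_eq, other] at hx hy heq hxy nx ny
    simp only [Prod.mk.injEq, ne_eq] at hxy
    rcases hx.2 with rfl | rfl <;> rcases hy.2 with rfl | rfl <;> simp_all
  have hsub : ((acc.filter fun x => isEnd u x.1).map fun x => other u x.1).toFinset ⊆ N u := by
    intro v hv
    rw [List.mem_toFinset, List.mem_map] at hv
    obtain ⟨x, hx, rfl⟩ := hv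
    rw [List.mem_filter] at hx
    have ax := h1 x hx.1
    obtain ⟨⟨x1, x2⟩, cx⟩ := x
    simp only [isEnd, Bool.or_eq_true, decide_eq_true_eq, other] at hx ax ⊢
    rcases hx.2 with rfl | rfl
    · simpa using hN _ _ ax
    · split_ifs with h
      · exact absurd h (hne _ _ ax)
      · exact hN _ _ (hsymm _ _ ax)
  have := Finset.card_le_card hsub
  rw [List.toFinset_card_of_nodup hnd, List.length_map] at this
  exact this.trans (hcard u)

theorem freeColor_spec {Δ : ℕ} {adj : ℕ → ℕ → Prop} {acc : List ((ℕ × ℕ) × ℕ)}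
    (N : ℕ → Finset ℕ) (hN : ∀ u v, adj u v → v ∈ N u) (hcard : ∀ u, (N u).card ≤ Δ)
    (hsymm : ∀ u v, adj u v → adj v u) (hne : ∀ u v, adj u v → u ≠ v)
    (h1 : ∀ x ∈ acc, adj x.1.1 x.1.2)
    (h2 : acc.Pairwise fun x y => x.1 ≠ y.1 ∧ x.1 ≠ (y.1.2, y.1.1)) (e : ℕ × ℕ) :
    freeColor Δ acc e < 2 * Δ + 1 ∧ ∀ x ∈ acc, touch x.1 e = true → x.2 ≠ freeColor Δ acc e := by
  have hex : ∃ c ∈ List.range (2 * Δ + 1),
      (acc.all fun x => !(touch x.1 e && decide (x.2 = c))) = true := by
    by_contra hcon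
    push Not at hcon
    have hsub : Finset.range (2 * Δ + 1) ⊆
        ((acc.filter fun x => touch x.1 e).map fun x => x.2).toFinset := by
      intro c hc
      have := hcon c (List.mem_range.2 (Finset.mem_range.1 hc))
      rw [Ne, List.all_eq_true] at this
      push Not at this
      obtain ⟨x, hx, h⟩ := this
      have h' : touch x.1 e = true ∧ x.2 = c := by
        revert h
        cases touch x.1 e <;> simp
      rw [List.mem_toFinset, List.mem_map]
      exact ⟨x, List.mem_filter.2 ⟨hx, h'.1⟩, h'.2⟩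
    have hle := Finset.card_le_card hsub
    rw [Finset.card_range] at hle
    have hle2 := hle.trans (List.toFinset_card_le _)
    rw [List.length_map] at hle2
    have hsplit : (acc.filter fun x => touch x.1 e).length ≤
        (acc.filter fun x => isEnd e.1 x.1).length +
          (acc.filter fun x => isEnd e.2 x.1).length := by
      clear hle hle2 hsub hcon h1 h2
      induction acc with
      | nil => simp
      | cons x acc ih =>
        have hx : touch x.1 e = true → isEnd e.1 x.1 = true ∨ isEnd e.2 x.1 = true := by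
          simp only [touch, isEnd, Bool.or_eq_true, decide_eq_true_eq]
          tauto
        rw [List.filter_cons, List.filter_cons, List.filter_cons]
        by_cases ht : touch x.1 e = true
        · rw [if_pos ht]
          rcases hx ht with h | h
          · rw [if_pos h]
            split_ifs <;> simp <;> omega
          · rw [if_pos h]
            split_ifs <;> simp <;> omega
        · rw [if_neg ht]
          split_ifs <;> simp <;> omega
    have b1 := length_isEnd_le N hN hcard hsymm hne h1 h2 e.1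
    have b2 := length_isEnd_le N hN hcard hsymm hne h1 h2 e.2
    omega
  have hsome : ((List.range (2 * Δ + 1)).find? fun c =>
    acc.all fun x => !(touch x.1 e && decide (x.2 = c))).isSome = true := by
    rw [List.find?_isSome]
    exact hex
  obtain ⟨c, hc⟩ := Option.isSome_iff_exists.1 hsome
  have hfree : freeColor Δ acc e = c := by unfold freeColor; rw [hc]; rfl
  rw [hfree]
  have hmem := List.mem_of_find?_eq_some hc
  have hprop := List.find?_some hc
  refine ⟨List.mem_range.1 hmem, ?_⟩
  intro x hx ht heq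
  rw [List.all_eq_true] at hprop
  have := hprop x hx
  simp [ht, heq] at this

/-- The greedy colouring of a list of arcs. -/
theorem coloring_spec {Δ : ℕ} {adj : ℕ → ℕ → Prop} (N : ℕ → Finset ℕ)
    (hN : ∀ u v, adj u v → v ∈ N u) (hcard : ∀ u, (N u).card ≤ Δ)
    (hsymm : ∀ u v, adj u v → adj v u) (hne : ∀ u v, adj u v → u ≠ v)
    (L : List (ℕ × ℕ)) : L.Nodup → (∀ e ∈ L, adj e.1 e.2) →
    ColInv Δ adj (coloring Δ L) ∧ (∀ x ∈ coloring Δ L, x.1 ∈ L) ∧
      ∀ e ∈ L, ∃ x ∈ coloring Δ L, x.1 = e ∨ x.1 = (e.2, e.1) := by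
  unfold coloring
  induction L using List.reverseRecOn with
  | nil =>
    intro _ _
    exact ⟨⟨by simp, by simp, by simp, by simp⟩, by simp, by simp⟩
  | append_singleton L e ih =>
    intro hnd hadj
    rw [List.nodup_append] at hnd
    have heL : e ∉ L := fun h => hnd.2.2 e h e (by simp) rfl
    obtain ⟨inv, hsub, hcov⟩ := ih hnd.1 fun e' he' => hadj e' (by simp [he'])
    rw [List.foldl_append, List.foldl_cons, List.foldl_nil]
    set acc := L.foldl (colStep Δ) [] with hacc
    unfold colStep
    by_cases hany : (acc.any fun x => decide (x.1 = (e.2, e.1))) = true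
    · rw [if_pos hany]
      refine ⟨inv, fun x hx => by simp [hsub x hx], ?_⟩
      intro e' he'
      rw [List.mem_append, List.mem_singleton] at he'
      rcases he' with he' | rfl
      · exact hcov e' he'
      · rw [List.any_eq_true] at hany
        obtain ⟨x, hx, h⟩ := hany
        exact ⟨x, hx, Or.inr (by simpa using h)⟩
    · rw [if_neg hany]
      have hno : ∀ x ∈ acc, x.1 ≠ (e.2, e.1) := by
        intro x hx h
        exact hany (List.any_eq_true.2 ⟨x, hx, by simpa using h⟩)
      have hfree := freeColor_spec N hN hcard hsymm hne inv.adj_of_mem inv.distinct e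
      refine ⟨⟨?_, ?_, ?_, ?_⟩, ?_, ?_⟩
      · intro x hx
        rcases List.mem_cons.1 hx with rfl | hx
        · exact hadj e (by simp)
        · exact inv.adj_of_mem x hx
      · rw [List.pairwise_cons]
        refine ⟨fun x hx => ⟨?_, ?_⟩, inv.distinct⟩
        · intro h
          exact heL (by simpa [← h] using hsub x hx)
        · intro h
          apply hno x hx
          have h' : e = (x.1.2, x.1.1) := h
          rw [h']
      · rw [List.pairwise_cons]
        refine ⟨fun x hx ht h => ?_, inv.proper⟩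
        rw [touch_comm] at ht
        exact hfree.2 x hx ht h.symm
      · intro x hx
        rcases List.mem_cons.1 hx with rfl | hx
        · exact hfree.1
        · exact inv.lt x hx
      · intro x hx
        rcases List.mem_cons.1 hx with rfl | hx
        · simp
        · simp [hsub x hx]
      · intro e' he'
        rw [List.mem_append, List.mem_singleton] at he'
        rcases he' with he' | rfl
        · obtain ⟨x, hx, h⟩ := hcov e' he'
          exact ⟨x, List.mem_cons_of_mem _ hx, h⟩
        · exact ⟨_, List.mem_cons_self, Or.inl rfl⟩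

end Pool.Agent.MP_311ff9_lc
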