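import Pool.Agent.Lib.PolyTime.Defs

/-!
# Maximization problems, AP-reductions, triangle packing, and Max-3DM under `L_p`
-/

namespace Pool.Agent.MP_311ff9_lc

open Pool.Agent.PolyTime
open scoped ENNReal

/-- A maximization problem: (encoded) instances, (encoded) candidate solutions, the feasibility
relation and the objective function. -/
structure MaxProblem where
  Inst : Type
  Sol : Type
  encInst : Inst → D
  encSol : Sol → D
  feasible : Inst → Sol → Prop
  value : Inst → Sol → ℝ

/-- The performance ratio of the solution `y` of the instance `x` is at most `r`: the value of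
every feasible solution, hence the optimum, is at most `r` times the value of `y`. -/
def MaxProblem.RatioAtMost (A : MaxProblem) (x : A.Inst) (y : A.Sol) (r : ℝ) : Prop :=
  ∀ y', A.feasible x y' → A.value x y' ≤ r * A.value x y

/-- An approximation-preserving (AP-) reduction from `A` to `B`: for every rational `r > 1`,
polynomial-time computable functions `f r` (instances of `A` to instances of `B`) and `g r`
(an instance of `A` and a solution of `B` to a solution of `A`), and a constant `α ≥ 1`, such
that a solution of `f r x` of performance ratio at most `r` is mapped to a solution of `x` of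
performance ratio at most `1 + α (r - 1)`. -/
structure APReduction (A B : MaxProblem) where
  f : ℚ → A.Inst → B.Inst
  g : ℚ → A.Inst → B.Sol → A.Sol
  α : ℝ
  one_le_α : 1 ≤ α
  f_polyTime : ∀ r : ℚ, 1 < r → IsPolyTime A.encInst B.encInst (f r)
  g_polyTime : ∀ r : ℚ, 1 < r →
    IsPolyTime (fun q : A.Inst × B.Sol => D.cons (A.encInst q.1) (B.encSol q.2)) A.encSol
      (fun q => g r q.1 q.2)
  exists_feasible : ∀ r : ℚ, 1 < r → ∀ x, (∃ s, A.feasible x s) → ∃ y, B.feasible (f r x) y
  g_feasible : ∀ r : ℚ, 1 < r → ∀ x y, B.feasible (f r x) y → A.feasible x (g r x y)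
  ratio : ∀ r : ℚ, 1 < r → ∀ x y, B.feasible (f r x) y → B.RatioAtMost (f r x) y r →
    A.RatioAtMost x (g r x y) (1 + α * (r - 1))

/-! ### Maximum triangle packing in graphs of bounded degree -/

/-- A finite graph of maximum degree at most `Δ`, on the vertices `0, ..., n - 1`. -/
structure BoundedGraph (Δ : ℕ) where
  n : ℕ
  G : SimpleGraph (Fin n)
  [dec : DecidableRel G.Adj]
  degree_le : ∀ v, G.degree v ≤ Δ

attribute [instance] BoundedGraph.dec

/-- The adjacency matrix. -/
def BoundedGraph.matrix {Δ : ℕ} (X : BoundedGraph Δ) : List (List Bool) :=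
  List.ofFn fun u => List.ofFn fun v => decide (X.G.Adj u v)

/-- The natural numbers `u`, `v` are adjacent vertices. -/
def BoundedGraph.Adj {Δ : ℕ} (X : BoundedGraph Δ) (u v : ℕ) : Prop :=
  ∃ (hu : u < X.n) (hv : v < X.n), X.G.Adj ⟨u, hu⟩ ⟨v, hv⟩

/-- A triangle packing: a list of triples of pairwise adjacent vertices such that no vertex
occurs twice in the list. -/
def IsTrianglePacking {Δ : ℕ} (X : BoundedGraph Δ) (S : List (ℕ × ℕ × ℕ)) : Prop :=
  (∀ t ∈ S, X.Adj t.1 t.2.1 ∧ X.Adj t.2.1 t.2.2 ∧ X.Adj t.1 t.2.2) ∧
    (S.flatMap fun t => [t.1, t.2.1, t.2.2]).Nodup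

/-- MAX TRIANGLE PACKING restricted to graphs of maximum degree at most `Δ`. -/
def maxTrianglePacking (Δ : ℕ) : MaxProblem where
  Inst := BoundedGraph Δ
  Sol := List (ℕ × ℕ × ℕ)
  encInst X := enc X.matrix
  encSol S := enc S
  feasible X S := IsTrianglePacking X S
  value _ S := S.length

/-! ### Max-3DM under `L_p`, dimension part of the input -/

/-- An instance: `3n` distinct points of `ℚ^s`, each given by the list of its coordinates. -/
structure PointSet where
  s : ℕ
  n : ℕ
  s_pos : 0 < s
  n_pos : 0 < n
  pts : List (List ℚ)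
  length_pts : pts.length = 3 * n
  length_of_mem : ∀ x ∈ pts, x.length = s
  nodup : pts.Nodup

/-- The `L_p` distance of two points of `ℚ^s`. -/
noncomputable def lpDist (p : ℝ≥0∞) (s : ℕ) [Fact (1 ≤ p)] (x y : List ℚ) : ℝ :=
  dist (WithLp.toLp p (fun i : Fin s => ((x.getD i 0 : ℚ) : ℝ)))
    (WithLp.toLp p (fun i : Fin s => ((y.getD i 0 : ℚ) : ℝ)))

/-- The perimeter of a triangle. -/
noncomputable def perimeter (p : ℝ≥0∞) (s : ℕ) [Fact (1 ≤ p)]
    (t : List ℚ × List ℚ × List ℚ) : ℝ :=
  lpDist p s t.1 t.2.1 + lpDist p s t.2.1 t.2.2 + lpDist p s t.1 t.2.2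

/-- `π` is a partition of the point set into triangles: the points of the triangles, taken
together, are exactly the given points, each occurring once. -/
def IsPartition (P : PointSet) (π : List (List ℚ × List ℚ × List ℚ)) : Prop :=
  (π.flatMap fun t => [t.1, t.2.1, t.2.2]).Perm P.pts

/-- Max-3DM under `L_p` with the dimension part of the input: partition the given `3n` points of
`ℚ^s` into `n` triangles of maximum total perimeter. -/
noncomputable def max3DM (p : ℝ≥0∞) [Fact (1 ≤ p)] : MaxProblem where
  Inst := PointSet
  Sol := List (List ℚ × List ℚ × List ℚ)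
  encInst P := enc P.pts
  encSol π := enc π
  feasible P π := IsPartition P π
  value P π := (π.map (perimeter p P.s)).sum

end Pool.Agent.MP_311ff9_lc
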