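import Pool.Agent.Lib.MP_311ff9_lc.PolyProof

/-!
# AP-reduction from MAX TRIANGLE PACKING (bounded degree) to Max-3DM under every `L_p` norm
-/

namespace Pool.Agent.MP_311ff9_lc.ApReduction

open Pool.Agent.PolyTime Pool.Agent.MP_311ff9_lc
open scoped ENNReal

/-- For every `p` in `[1, ∞]` and every degree bound `Δ`, MAX TRIANGLE PACKING on graphs of
maximum degree at most `Δ` is AP-reducible to Max-3DM under `L_p` with the dimension part of
the input. -/
theorem result (Δ : ℕ) (p : ℝ≥0∞) [Fact (1 ≤ p)] :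
    Nonempty (APReduction (maxTrianglePacking Δ) (max3DM p)) := by
  obtain ⟨ℓ, hℓ, hemb⟩ := levelEmb (Δ := Δ) p
  refine ⟨{
    f := fun _ X => reduceF p X
    g := fun _ X π => extract X.matrix (vec (decide (p = ∞)) Δ X.matrix) π
    α := alpha Δ ℓ
    one_le_α := one_le_alpha Δ hℓ
    f_polyTime := ?_
    g_polyTime := ?_
    exists_feasible := ?_
    g_feasible := ?_
    ratio := ?_ }⟩
  · intro _ _
    let _ : Enc (BoundedGraph Δ) := ⟨fun X => enc X.matrix⟩
    let _ : Enc PointSet := ⟨fun P => enc P.pts⟩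
    have h : PTime (fun X : BoundedGraph Δ => reduceF p X) :=
      (ptsOf_p (decide (p = ∞)) Δ).of_enc_eq (fun X : BoundedGraph Δ => X.matrix)
        (fun _ => rfl) (fun _ => rfl)
    exact h.isPolyTime
  · intro _ _
    let _ : Enc (BoundedGraph Δ) := ⟨fun X => enc X.matrix⟩
    have h : PTime (fun q : BoundedGraph Δ × List (List ℚ × List ℚ × List ℚ) =>
        extract q.1.matrix (vec (decide (p = ∞)) Δ q.1.matrix) q.2) :=
      (extract_p (decide (p = ∞)) Δ).of_enc_eq
        (fun q : BoundedGraph Δ × List (List ℚ × List ℚ × List ℚ) => (q.1.matrix, q.2))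
        (fun _ => rfl) (fun _ => rfl)
    exact h.isPolyTime
  · intro _ _ X _
    refine ⟨(build [] (kept X.matrix)).map (map3 (vec (decide (p = ∞)) Δ X.matrix)), ?_⟩
    change (flat3 ((build [] (kept X.matrix)).map (map3 (vec (decide (p = ∞)) Δ
      X.matrix)))).Perm ((pointList (kept X.matrix)).map (vec (decide (p = ∞)) Δ X.matrix))
    rw [flat3_map3]
    exact (perm_build (S := []) (R := kept X.matrix) (List.Perm.refl _)).map _
  · intro _ _ X π _
    exact extract_isTrianglePacking X _ π
  · intro r hr X π hπ hratio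
    obtain ⟨κ, hκ⟩ := hemb X
    intro S hS
    have hr1 : (1 : ℝ) ≤ ((r : ℚ) : ℝ) := by exact_mod_cast hr.le
    exact main_ineq X hκ hℓ π hπ r hr1 hratio S hS

end Pool.Agent.MP_311ff9_lc.ApReduction
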